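import Pool.Agent.Lib.MP_a78e1f_lc.H72.Clos

/-!
# ST: a random point `X` and a set `Y` which separates the new slaloms from the old points
-/

universe u v w

open Cardinal Filter MeasureTheory

namespace Pool.Agent.Lib.MP_a78e1f_lc.H72

open Pool.Agent.Lib.MP_100a6c_lc
open Pool.Agent.Lib.MP_c5d73d_lc.F (pr)
open Pool.Agent.Lib.MP_e6fef2_lc
open Pool.Agent.Lib.MP_6d445e_gt
open Pool.Agent.Lib.MP_a78e1f_lc

/-! ## Paths -/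

section

variable {A : Type u} [CompleteBooleanAlgebra A] {X : Type u} {ok : List ℕ → List ℕ → Prop}
  {nd : X → List ℕ} {ed : ℕ → X → X → A} {s0 : X} {P : List X → A} {g : Ult A}

theorem ptr_root (hP : PTr ok nd ed s0 P g) {s : X} (h : P [s] ∈ g) : s = s0 := by
  obtain ⟨ρ, hρ⟩ := hP.last _ h
  rcases ρ with _ | ⟨b, ρ⟩
  · simpa using hρ
  · simp at hρ

theorem ptr_gd {gd : X → A} (hP : PTr ok nd ed s0 P g) (hle : ∀ m s s', ed m s s' ≤ gd s')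
    (h0 : gd s0 ∈ g) {s : X} {ρ : List X} (h : P (s :: ρ) ∈ g) : gd s ∈ g := by
  rcases ρ with _ | ⟨b, ρ⟩
  · rw [ptr_root hP h]
    exact h0
  · exact g.mono (hle _ _ _) (hP.step _ _ _ h).2

theorem ptr_len (hP : PTr ok nd ed s0 P g)
    (hnode : ∀ s s', ed 0 s s' ∈ g → ∃ l : ℕ, nd s ++ [l] <+: nd s') {ρ : List X} :
    ∀ {s : X}, P (s :: ρ) ∈ g → ρ.length ≤ (nd s).length := by
  induction ρ with
  | nil => intro s _; exact Nat.zero_le _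
  | cons b ρ ih =>
    intro s h
    obtain ⟨h1, h2⟩ := hP.step _ _ _ h
    obtain ⟨l, hl⟩ := hnode _ _ h2
    have h3 := hl.length_le
    have h4 := ih h1
    rw [List.length_append, List.length_singleton] at h3
    rw [List.length_cons]
    omega

theorem ptr_desc {r : X → X → Prop} (hr : ∀ s, r s s) (hr' : ∀ s s' s'', r s s' → r s' s'' → r s s'')
    (hP : PTr ok nd ed s0 P g) (hst : ∀ s s', ed 0 s s' ∈ g → r s s') {s : X} {ρ ρ' : List X} :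
    ∀ {s' : X}, P (s' :: ρ') ∈ g → s :: ρ <:+ s' :: ρ' → r s s' := by
  induction ρ' with
  | nil =>
    intro s' _ h
    rcases List.suffix_cons_iff.1 h with h | h
    · rw [(List.cons.inj h).1]
      exact hr _
    · exact absurd (List.eq_nil_of_suffix_nil h) (by simp)
  | cons b ρ' ih =>
    intro s' h h'
    obtain ⟨h1, h2⟩ := hP.step _ _ _ h
    rcases List.suffix_cons_iff.1 h' with h' | h'
    · rw [(List.cons.inj h').1]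
      exact hr _
    · exact hr' _ _ _ (ih h1 h') (hst _ _ h2)

theorem branch_states {π : ℕ → List X} (h0 : π 0 = [s0]) (h1 : ∀ n, ∃ s, π (n + 1) = s :: π n) :
    ∃ ξ : ℕ → X, ξ 0 = s0 ∧ (∀ n, π (n + 1) = ξ (n + 1) :: π n) ∧
      ∀ n, ∃ ρ, π n = ξ n :: ρ ∧ ρ.length = n := by
  choose s hs using h1
  have hlen : ∀ n, (π n).length = n + 1 := by
    intro n
    induction n with
    | zero => rw [h0]; rfl
    | succ n ih => rw [hs n, List.length_cons, ih]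
  refine ⟨fun n => Nat.casesOn n s0 s, rfl, hs, fun n => ?_⟩
  cases n with
  | zero => exact ⟨[], h0, rfl⟩
  | succ n => exact ⟨π n, hs n, hlen n⟩

end

section

variable {𝒯 : Set (List ℕ) → Prop} {ok : List ℕ → List ℕ → Prop} {A : Type u}
  [CompleteBooleanAlgebra A] {Θ : Type u} {nd : Θ → List ℕ} {lt : Θ → Θ → Prop}
  {Λ : Set (tC 𝒯 A) → Θ → RA (tC 𝒯 A) → RA A}

/-- The name of the random point. -/
noncomputable def nX {N : Set El.{u}} (nd : Θ → List ℕ) (P : List (XN 𝒯 A Θ N) → A) (i : ℕ) :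
    tC 𝒯 A :=
  ⨆ q : {q : XN 𝒯 A Θ N × List (XN 𝒯 A Θ N) // q.1.1.σ[i]? = some true},
    tE 𝒯 A (P (q.1.1 :: q.1.2)) ⊓ tND (nd q.1.1.1.θ)

/-- The name of the separating set. -/
noncomputable def nY {N : Set El.{u}} (nd : Θ → List ℕ) (P : List (XN 𝒯 A Θ N) → A) (m : ℕ) :
    tC 𝒯 A :=
  ⨆ q : {q : XN 𝒯 A Θ N × XN 𝒯 A Θ N × List (XN 𝒯 A Θ N) // ∃ b : List Bool,
      nd q.2.1.1.θ ++ [b.length] <+: nd q.1.1.θ ∧ b ∉ q.1.1.S ∧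
        m = Nat.pair (Pc (nd q.2.1.1.θ)) (cd b)},
    tE 𝒯 A (P (q.1.1 :: q.1.2.1 :: q.1.2.2)) ⊓ tND (nd q.1.1.1.θ)

/-- The branch of the generic ultrafilter. -/
theorem branch (hkap : KapStatement.{u})
    (hsys : Sys 𝒯 ok A Θ nd lt Λ) (hce : IsCE (tE 𝒯 A))
    {V : Par (tC 𝒯 A) × Qs Θ (RA (tC 𝒯 A)) → List Bool → A} {N : Set El.{u}}
    {DD : ℕ → Set (tC 𝒯 A)} {EE : ℕ → Set (Pt (tC 𝒯 A))} {xs : ℕ → ℕ → RA (tC 𝒯 A)}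
    (hen : Enu N DD EE xs) (s0 : XN 𝒯 A Θ N) (hs0 : s0.1.n = 0) (a : A) (ha : a ≤ gdx Λ DD s0)
    (P : List (XN 𝒯 A Θ N) → A) (p : tC 𝒯 A) (hp : p ≤ tE 𝒯 A a)
    (T1 : ∀ᶠ g in ae A, a ∈ g →
      PTr ok (fun s : XN 𝒯 A Θ N => nd s.1.θ) (edx ok nd lt Λ DD EE xs V) s0 P g)
    (T2 : ∀ᶠ h in ae (tC 𝒯 A), p ∈ h → ∀ g : Ult A, (∀ b, b ∈ g ↔ tE 𝒯 A b ∈ h) →
      ∃ π : ℕ → List (XN 𝒯 A Θ N), π 0 = [s0] ∧ (∀ n, ∃ s, π (n + 1) = s :: π n) ∧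
        (∀ n, P (π n) ∈ g) ∧
        ∀ (s : XN 𝒯 A Θ N) ρ, P (s :: ρ) ∈ g → (tND (nd s.1.θ) ∈ h ↔ s :: ρ = π ρ.length))
    (T3 : ∀ᶠ h in ae (tC 𝒯 A), ∀ τ : {τ : TX 𝒯 A // In N τ}, p ∈ h →
      ∀ g : Ult A, (∀ b, b ∈ g ↔ tE 𝒯 A b ∈ h) → ∀ (s : XN 𝒯 A Θ N) ρ, P (s :: ρ) ∈ g →
        tND (nd s.1.θ) ∈ h → (∀ (s' : XN 𝒯 A Θ N) ρ', P (s' :: ρ') ∈ g →
          s :: ρ <:+ s' :: ρ' → τ.1.1 (nd s'.1.θ) ∈ g) → tG τ.1 ∈ h) :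
    ∀ᶠ h in ae (tC 𝒯 A), p ∈ h → ∃ (ξ : ℕ → XN 𝒯 A Θ N) (lk : ℕ → ℕ),
      Br ok nd lt Λ N DD EE xs (h.pull hce) (fun j => (ξ j).1) lk ∧ ξ 0 = s0 ∧
      (∀ i, nX nd P i ∈ h ↔ ∃ j, (ξ j).1.σ[i]? = some true) ∧
      (∀ m, nY nd P m ∈ h ↔ ∃ j, ∃ b : List Bool,
        nd (ξ j).1.θ ++ [b.length] <+: nd (ξ (j + 1)).1.θ ∧ b ∉ (ξ (j + 1)).1.S ∧
          m = Nat.pair (Pc (nd (ξ j).1.θ)) (cd b)) ∧
      ∀ j (b : A) (τ : TX 𝒯 A), In N b → In N τ → (ξ j).1.e ≤ kap (tE 𝒯 A b ⊓ tG τ) →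
        tE 𝒯 A b ∈ h ∧ tG τ ∈ h := by
  have hgal : ∀ (r : RA A) (a : A), prj kap r ≤ a ↔ r ≤ kap a :=
    (all_alg A (RA A) kap (hkap A).1).2.2.2.2.2.2.2.2.2.2.1
  have hX : ∀ᶠ h in ae (tC 𝒯 A), ∀ i, nX nd P i ∈ h ↔
      ∃ q : {q : XN 𝒯 A Θ N × List (XN 𝒯 A Θ N) // q.1.1.σ[i]? = some true},
        tE 𝒯 A (P (q.1.1 :: q.1.2)) ⊓ tND (nd q.1.1.1.θ) ∈ h := ae_all fun i => ae_iSup _
  have hY : ∀ᶠ h in ae (tC 𝒯 A), ∀ m, nY nd P m ∈ h ↔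
      ∃ q : {q : XN 𝒯 A Θ N × XN 𝒯 A Θ N × List (XN 𝒯 A Θ N) // ∃ b : List Bool,
        nd q.2.1.1.θ ++ [b.length] <+: nd q.1.1.θ ∧ b ∉ q.1.1.S ∧
          m = Nat.pair (Pc (nd q.2.1.1.θ)) (cd b)},
        tE 𝒯 A (P (q.1.1 :: q.1.2.1 :: q.1.2.2)) ⊓ tND (nd q.1.1.1.θ) ∈ h :=
    ae_all fun i => ae_iSup _
  filter_upwards [ae_pull hce T1, T2, T3, hX, hY] with h t1 t2 t3 hX hY hph
  have hag : a ∈ h.pull hce := h.mono hp hph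
  have hP := t1 hag
  obtain ⟨π, p0, p1, p2, p3⟩ := t2 hph (h.pull hce) fun b => Iff.rfl
  obtain ⟨ξ, x0, x1, x2⟩ := branch_states p0 p1
  have hlen : ∀ n, (π n).length = n + 1 := by
    intro n
    obtain ⟨ρ, h1, h2⟩ := x2 n
    rw [h1, List.length_cons, h2]
  have hgd : ∀ (s : XN 𝒯 A Θ N) ρ, P (s :: ρ) ∈ h.pull hce → gdx Λ DD s ∈ h.pull hce :=
    fun s ρ hs => ptr_gd hP (fun m s s' => iSup_le fun _ => inf_le_left)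
      ((h.pull hce).mono ha hag) hs
  have hed : ∀ s s' : XN 𝒯 A Θ N, edx ok nd lt Λ DD EE xs V 0 s s' ∈ h.pull hce →
      ∃ l, Stp 𝒯 ok nd lt (pm DD EE xs s.1.n) l s.1 s'.1 := by
    intro s s' hs
    by_contra hcon
    unfold edx at hs
    rw [iSup_neg (fun ⟨l, _, hl⟩ => hcon ⟨l, hl⟩)] at hs
    exact (h.pull hce).not_bot hs
  have hstep : ∀ n, ∃ l, Stp 𝒯 ok nd lt (pm DD EE xs (ξ n).1.n) l (ξ n).1 (ξ (n + 1)).1 := by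
    intro n
    obtain ⟨ρ, h1, -⟩ := x2 n
    have h2 := p2 (n + 1)
    rw [x1 n, h1] at h2
    exact hed _ _ (hP.step _ _ _ h2).2
  choose lk hlk using hstep
  have hξP : ∀ n, ∃ ρ, π n = ξ n :: ρ ∧ ρ.length = n ∧ P (ξ n :: ρ) ∈ h.pull hce ∧
      tND (nd (ξ n).1.θ) ∈ h := by
    intro n
    obtain ⟨ρ, h1, h2⟩ := x2 n
    have h3 := p2 n
    rw [h1] at h3
    refine ⟨ρ, h1, h2, h3, (p3 _ _ h3).2 ?_⟩
    rw [h2, h1]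
  refine ⟨ξ, lk, ⟨fun j => (ξ j).2, by rw [x0]; exact hs0, ?_, hlk⟩, x0, ?_, ?_, ?_⟩
  · intro j
    obtain ⟨ρ, -, -, h1, -⟩ := hξP j
    exact ((h.pull hce).mem_inf.1 (hgd _ _ h1)).2
  · intro i
    rw [hX i]
    constructor
    · rintro ⟨⟨⟨s, ρ⟩, hq⟩, h1⟩
      obtain ⟨h2, h3⟩ := h.mem_inf.1 h1
      have h4 := (p3 s ρ h2).1 h3
      obtain ⟨ρ', h5, -⟩ := x2 ρ.length
      rw [h5] at h4
      refine ⟨ρ.length, ?_⟩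
      rw [← (List.cons.inj h4).1]
      exact hq
    · rintro ⟨j, hj⟩
      obtain ⟨ρ, -, -, h1, h2⟩ := hξP j
      exact ⟨⟨(ξ j, ρ), hj⟩, h.mem_inf.2 ⟨h1, h2⟩⟩
  · intro m
    rw [hY m]
    constructor
    · rintro ⟨⟨⟨s', s, ρ⟩, hq⟩, h1⟩
      obtain ⟨h2, h3⟩ := h.mem_inf.1 h1
      have h4 := (p3 s' (s :: ρ) h2).1 h3
      obtain ⟨ρ', h5, -⟩ := x2 ρ.length
      rw [List.length_cons, x1, h5] at h4
      refine ⟨ρ.length, ?_⟩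
      have h6 := List.cons.inj h4
      rw [← h6.1, ← (List.cons.inj h6.2).1]
      exact hq
    · rintro ⟨j, hj⟩
      obtain ⟨ρ, h0, -, h1, h2⟩ := hξP (j + 1)
      obtain ⟨ρ', h3, -, -, -⟩ := hξP j
      rw [x1 j, h3] at h0
      have h4 := (List.cons.inj h0).2
      rw [← h4] at h1
      exact ⟨⟨(ξ (j + 1), ξ j, ρ'), hj⟩, h.mem_inf.2 ⟨h1, h2⟩⟩
  · intro j b τ hb hτ hle
    obtain ⟨ρ, -, -, h1, h2⟩ := hξP j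
    have key : ∀ (s' : XN 𝒯 A Θ N) ρ', P (s' :: ρ') ∈ h.pull hce → ξ j :: ρ <:+ s' :: ρ' →
        b ⊓ τ.1 (nd s'.1.θ) ∈ h.pull hce := by
      intro s' ρ' h3 h4
      have h5 : s'.1.e ≤ (ξ j).1.e := by
        refine ptr_desc (r := fun s s' : XN 𝒯 A Θ N => s'.1.e ≤ s.1.e) (fun s => le_rfl)
          (fun s s' s'' h h' => h'.trans h) hP (fun s s' hs => ?_) h3 h4
        obtain ⟨l, hl⟩ := hed s s' hs
        exact hl.2.1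
      have h6 := ((h.pull hce).mem_inf.1 (hgd _ _ h3)).2
      refine (h.pull hce).mono ?_ h6
      unfold Pos
      rw [hgal]
      exact hsys.nod _ (hen.Dt _) _ _ b τ ((inf_le_left.trans h5).trans hle)
    have h3 : b ∈ h.pull hce :=
      ((h.pull hce).mem_inf.1 (key (ξ j) ρ h1 List.suffix_rfl)).1
    exact ⟨h3, t3 ⟨τ, hτ⟩ hph (h.pull hce) (fun b => Iff.rfl) (ξ j) ρ h1 h2
      fun s' ρ' h4 h5 => ((h.pull hce).mem_inf.1 (key s' ρ' h4 h5)).2⟩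

/-- The condition is below `gcX`. -/
theorem good (hok : ∀ t t', ok t t' → t <+: t') (hkap : KapStatement.{u}) (hcm : CmStatement)
    (hcod : CodStatement) (hdix : DixStatement.{u}) (hsys : Sys 𝒯 ok A Θ nd lt Λ)
    (hce : IsCE (tE 𝒯 A))
    {V : Par (tC 𝒯 A) × Qs Θ (RA (tC 𝒯 A)) → List Bool → A} {N : Set El.{u}}
    (hN : Ncl ok nd lt Λ V N)
    {DD : ℕ → Set (tC 𝒯 A)} {EE : ℕ → Set (Pt (tC 𝒯 A))} {xs : ℕ → ℕ → RA (tC 𝒯 A)}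
    (hen : Enu N DD EE xs) (s0 : XN 𝒯 A Θ N) (c : tC 𝒯 A) (hc : In N c) (hs0 : s0.1.e = kap c)
    (X Y : ℕ → tC 𝒯 A) (p : tC 𝒯 A)
    (hbr : ∀ᶠ h in ae (tC 𝒯 A), p ∈ h → ∃ (ξ : ℕ → XN 𝒯 A Θ N) (lk : ℕ → ℕ),
      Br ok nd lt Λ N DD EE xs (h.pull hce) (fun j => (ξ j).1) lk ∧ ξ 0 = s0 ∧
      (∀ i, X i ∈ h ↔ ∃ j, (ξ j).1.σ[i]? = some true) ∧
      (∀ m, Y m ∈ h ↔ ∃ j, ∃ b : List Bool,
        nd (ξ j).1.θ ++ [b.length] <+: nd (ξ (j + 1)).1.θ ∧ b ∉ (ξ (j + 1)).1.S ∧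
          m = Nat.pair (Pc (nd (ξ j).1.θ)) (cd b)) ∧
      ∀ j (b : A) (τ : TX 𝒯 A), In N b → In N τ → (ξ j).1.e ≤ kap (tE 𝒯 A b ⊓ tG τ) →
        tE 𝒯 A b ∈ h ∧ tG τ ∈ h)
    (hver : ∀ᶠ h in ae (tC 𝒯 A), ∀ e : ℕ → RA (tC 𝒯 A), (∀ n, In N (e n)) →
      (∀ n, e (n + 1) ≤ e n) →
      (∀ E : Set (Pt (tC 𝒯 A)), In N E → MeasurableSet E → nl E →
        ∃ n, ∃ ε : List Bool → tC 𝒯 A, In N ε ∧ Avd ε E ∧ e n ≤ cl ε) →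
      (∀ n, ∃ k, ∃ ε : List Bool → tC 𝒯 A, In N ε ∧ Avd ε (rep (e n))ᶜ ∧ e k ≤ cl ε) →
      (∀ D : Set (tC 𝒯 A), In N D → sSup D = ⊤ → ∃ n, ∃ d ∈ D, In N d ∧ d ∈ h ∧ e n ≤ kap d) →
      (∀ n k, e n ⊓ cy (res (vx X h) k) ≠ ⊥) →
        rn N X ∈ h ∧ ∀ n, ev X (e n) ∈ h)
    (hevx : ∀ᶠ h in ae (tC 𝒯 A), rn N X ∈ h → EvG N X h) :
    p ≤ gcX N X Y ∧ p ≤ c := by
  have hmain : ∀ᶠ h in ae (tC 𝒯 A), p ∈ h → rn N X ∈ h ∧ c ∈ h ∧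
      (∀ m, ∃ k, m ≤ k ∧ ∀ n : ℕ, Y n ∈ h → n.unpair.1 < k → n.unpair.2 < k) ∧
      ∀ x : ℕ → RA (tC 𝒯 A), In N x → Sl x →
        ∃ n, ∀ q, n ≤ q → ∀ i, ev X (x (Nat.pair q i)) ∈ h → Y (Nat.pair q i) ∉ h := by
    filter_upwards [hbr, hver, hevx] with h h1 h2 h3 hp
    obtain ⟨ξ, lk, hb, x0, hX, hY, htree⟩ := h1 hp
    have hinN : ∀ j, In N (ξ j).1.e := fun j => hN.qe _ (ξ j).2
    obtain ⟨r1, r2⟩ := hb.ver hkap hcm hsys hen.Dt hX h2 hinN hen.Ea hen.Da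
      (fun i j => hN.c2 _ _ _ (hen.EN i) (hinN j) (hinN (j + 1)))
      (fun i j => hN.c3 _ _ (hen.DN i) (hinN j)) htree
    have hev := h3 r1
    have hev' : ∀ j, ev X (ξ j).1.e ∈ h := by
      intro j
      obtain ⟨i, hi, h4⟩ := r2 j
      exact hev.mono _ _ (hinN i) (hinN j) (hb.eanti hi) h4
    refine ⟨r1, ?_, hb.cut_aux hok hcod hY, ?_⟩
    · have h4 := hev' 0
      rw [x0, hs0] at h4
      exact (hev.kp c hc).1 h4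
    · intro x hx hsl
      obtain ⟨i, hi⟩ := hen.xa x hx hsl
      exact hb.dis_aux hok hcod hsys.wf hY hev hev' hinN x (fun n => hN.xk n x hx) i hi
  refine ⟨le_of_ae ?_, le_of_ae (hmain.mono fun h hh hp => (hh hp).2.1)⟩
  have hcx := H4.countable_in hN.cnt (ℕ → RA (tC 𝒯 A))
  have hdis : ∀ᶠ h in ae (tC 𝒯 A), ∀ (x : {x : ℕ → RA (tC 𝒯 A) // In N x}) (n : ℕ),
      disX n x.1 Y X ∈ h ↔ ∀ q, n ≤ q → ∀ i, ev X (x.1 (Nat.pair q i)) ∈ h →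
        Y (Nat.pair q i) ∉ h := ae_all fun x => ae_all fun n => (hdix (tC 𝒯 A)).1 n x.1 Y X
  filter_upwards [hmain, (hdix (tC 𝒯 A)).2.1 N hN.cnt X Y, H4.cut_mem Y, hdis] with h h1 h2 h3 h4 hp
  obtain ⟨r1, -, r2, r3⟩ := h1 hp
  refine h2.2 ⟨r1, h3 r2, fun x hx hsl => ?_⟩
  obtain ⟨n, hn⟩ := r3 x hx hsl
  exact ⟨n, (h4 ⟨x, hx⟩ n).2 hn⟩

/-- Separation. -/
theorem sep (hok : ∀ t t', ok t t' → t <+: t') (hmeas : MeasStatement.{u}) (hcm : CmStatement)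
    (hcod : CodStatement) (hgnd3 : ∀ t t', t <+: t' → (tND t' : tC 𝒯 A) ≤ tND t)
    (hce : IsCE (tE 𝒯 A))
    {V : Par (tC 𝒯 A) × Qs Θ (RA (tC 𝒯 A)) → List Bool → A}
    {Ψ : (List Bool → A) → ℕ → ℕ → A} {N : Set El.{u}}
    {DD : ℕ → Set (tC 𝒯 A)} {EE : ℕ → Set (Pt (tC 𝒯 A))} {xs : ℕ → ℕ → RA (tC 𝒯 A)}
    (hVN : ∀ s : XN 𝒯 A Θ N, ∀ j, In N (Ψ (V (pm DD EE xs s.1.n, s.1)) j))
    (hΨ : ∀ s : XN 𝒯 A Θ N, ∀ᶠ g in ae A, ∀ x : Cs,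
      (∀ m, V (pm DD EE xs s.1.n, s.1) (res x m) ∈ g) →
        ∃ j, x = vx (Ψ (V (pm DD EE xs s.1.n, s.1)) j) g)
    (s0 : XN 𝒯 A Θ N) (a : A) (P : List (XN 𝒯 A Θ N) → A) (p : tC 𝒯 A)
    (T1 : ∀ᶠ g in ae A, a ∈ g →
      PTr ok (fun s : XN 𝒯 A Θ N => nd s.1.θ) (edx ok nd lt Λ DD EE xs V) s0 P g)
    (T4 : ∀ r, r ≠ ⊥ → r ≤ p → ∀ n0, ∃ (s : XN 𝒯 A Θ N) (ρ : List (XN 𝒯 A Θ N)),
      n0 ≤ ρ.length ∧ ∃ a', a' ≠ ⊥ ∧ a' ≤ a ∧ ∀ᶠ g in ae A, a' ∈ g → P (s :: ρ) ∈ g ∧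
        ∀ m, ∃ (s' : XN 𝒯 A Θ N) (l : ℕ), m ≤ l ∧ ok (nd s.1.θ ++ [l]) (nd s'.1.θ) ∧
          P (s' :: s :: ρ) ∈ g ∧ prj (tE 𝒯 A) (r ⊓ tND (nd s'.1.θ)) ∈ g) (y : ℕ → A) :
    p ⊓ ⨆ n, disn n (xr y) (nY nd P) ≤ ⨆ ψ : ℕ → A, ⨆ _ : In N ψ, tE 𝒯 A (eqr y ψ) := by
  have halg := (all_alg A (tC 𝒯 A) (tE 𝒯 A) hce).2.2.2.2.2.2.2.2.2.2.2.2.2.2.2.2.2.2
  have hpm := (all_alg A (tC 𝒯 A) (tE 𝒯 A) hce).2.2.2.2.2.2.2.2.2.2.2.2.1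
  have hinf := (all_alg A (tC 𝒯 A) (tE 𝒯 A) hce).2.2.1
  by_contra hcon
  -- the element `r`
  obtain ⟨n0, r, hr0, hrp, hrd, hrB⟩ : ∃ (n0 : ℕ) (r : tC 𝒯 A), r ≠ ⊥ ∧ r ≤ p ∧
      r ≤ disn n0 (xr y) (nY nd P) ∧ ∀ ψ : ℕ → A, In N ψ → tE 𝒯 A (eqr y ψ) ⊓ r = ⊥ := by
    by_contra hc2
    push Not at hc2
    apply hcon
    refine le_of_ae ?_
    filter_upwards [ae_iSup fun n => disn n (xr y) (nY nd P)] with h h1 h2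
    obtain ⟨h3, h4⟩ := h.mem_inf.1 h2
    obtain ⟨n, hn⟩ := h1.1 h4
    by_contra h5
    have h6 : p ⊓ disn n (xr y) (nY nd P) ⊓
        (⨆ ψ : ℕ → A, ⨆ _ : In N ψ, tE 𝒯 A (eqr y ψ))ᶜ ∈ h :=
      h.mem_inf.2 ⟨h.mem_inf.2 ⟨h3, hn⟩, h.mem_compl.2 h5⟩
    obtain ⟨ψ, h7, h8⟩ := hc2 n _ (fun h9 => h.not_bot (h9 ▸ h6))
      (inf_le_left.trans inf_le_left) (inf_le_left.trans inf_le_right)
    apply h8
    refine le_bot_iff.1 (le_of_ae (Filter.Eventually.of_forall fun h' h9 => ?_))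
    obtain ⟨h10, h11⟩ := h'.mem_inf.1 h9
    have h12 := h'.mem_compl.1 (h'.mem_inf.1 h11).2
    have h13 : tE 𝒯 A (eqr y ψ) ≤ ⨆ ψ : ℕ → A, ⨆ _ : In N ψ, tE 𝒯 A (eqr y ψ) :=
      (le_iSup (fun _ : In N ψ => tE 𝒯 A (eqr y ψ)) h7).trans
        (le_iSup (fun ψ : ℕ → A => ⨆ _ : In N ψ, tE 𝒯 A (eqr y ψ)) ψ)
    exact absurd (h'.mono h13 h10) h12
  obtain ⟨s, ρ, hρ, a', ha0, haa, hT⟩ := T4 r hr0 hrp n0
  -- the length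
  have hlen : n0 ≤ Pc (nd s.1.θ) := by
    obtain ⟨g, hg, h1, h2⟩ := exists_of_ae (T1.and hT) ha0
    have hP := h1 (g.mono haa hg)
    have h3 := ptr_len hP (fun s s' hs => by
      by_contra hc
      have h4 : edx ok nd lt Λ DD EE xs V 0 s s' = ⊥ := by
        unfold edx
        refine iSup_eq_bot.2 fun h5 => ?_
        obtain ⟨l, -, hl⟩ := h5
        exact absurd ⟨l, hok _ _ hl.1⟩ hc
      rw [h4] at hs
      exact g.not_bot hs) (h2 hg).1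
    exact (hρ.trans h3).trans (hcod.2.2.2.2.2.2.1 _)
  -- claim 1
  have claim1 : ∀ (s' : XN 𝒯 A Θ N) (b : List Bool), nd s.1.θ ++ [b.length] <+: nd s'.1.θ →
      b ∉ s'.1.S → pre y b ⊓ P (s' :: s :: ρ) ⊓ prj (tE 𝒯 A) (r ⊓ tND (nd s'.1.θ)) = ⊥ := by
    intro s' b h1 h2
    rw [← halg]
    refine le_bot_iff.1 (le_of_ae (Filter.Eventually.of_forall fun h h3 => ?_))
    obtain ⟨h4, h5⟩ := h.mem_inf.1 h3
    rw [hinf] at h4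
    obtain ⟨h4, h6⟩ := h.mem_inf.1 h4
    obtain ⟨h5, h7⟩ := h.mem_inf.1 h5
    have h8 : xr y (Nat.pair (Pc (nd s.1.θ)) (cd b)) ∈ h := by
      refine h.mono (le_iSup_of_le (nd s.1.θ) (le_iSup_of_le b (le_iSup_of_le rfl le_rfl))) ?_
      exact h.mem_inf.2 ⟨h.mono (hgnd3 _ _ h1) h7, h4⟩
    have h9 : nY nd P (Nat.pair (Pc (nd s.1.θ)) (cd b)) ∈ h :=
      h.mono (le_iSup_of_le ⟨(s', s, ρ), b, h1, h2, rfl⟩ le_rfl) (h.mem_inf.2 ⟨h6, h7⟩)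
    have h10 : disn n0 (xr y) (nY nd P) ≤ (xr y (Nat.pair (Pc (nd s.1.θ)) (cd b)) ⊓
        nY nd P (Nat.pair (Pc (nd s.1.θ)) (cd b)))ᶜ :=
      (iInf_le _ (Pc (nd s.1.θ))).trans ((iInf_le _ hlen).trans (iInf_le _ (cd b)))
    exact absurd (h.mem_inf.2 ⟨h8, h9⟩) (h.mem_compl.1 (h.mono h10 (h.mono hrd h5)))
  obtain ⟨g, hg, g1, g2, g3, g4⟩ := exists_of_ae (T1.and (hT.and ((hΨ s).and
    (ae_all fun j : ℕ => (hmeas A).2.2.2.2.2.2.2.2 y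
      (Ψ (V (pm DD EE xs s.1.n, s.1)) j))))) ha0
  have hP := g1 (g.mono haa hg)
  obtain ⟨h1, h2⟩ := g2 hg
  have claim2 : ∀ m, V (pm DD EE xs s.1.n, s.1) (res (vx y g) m) ∈ g := by
    intro m
    obtain ⟨l0, hl0⟩ := hP.lim s ρ h1 m
    obtain ⟨s', l, h3, h4, h5, h6⟩ := h2 (max l0 m)
    have h7 := hl0 s' l ((le_max_left _ _).trans h3) (hok _ _ h4) h5
    have hlm : m ≤ l := (le_max_right _ _).trans h3
    obtain ⟨-, -, -, -, hc5, -, hc7, -⟩ := hcm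
    have h8 : res (vx y g) l ∈ s'.1.S := by
      by_contra hc
      have h9 := claim1 s' (res (vx y g) l) (by rw [hc5]; exact hok _ _ h4) hc
      have h10 : pre y (res (vx y g) l) ∈ g := by
        rw [(hmeas A).2.2.2.2.2.2.2.1 y (res (vx y g) l) g, hc5]
      apply g.not_bot
      rw [← h9]
      exact g.mem_inf.2 ⟨g.mem_inf.2 ⟨h10, h5⟩, h6⟩
    have h9 : (⨅ ρ ∈ s'.1.S, V (pm DD EE xs s.1.n, s.1) (ρ.take m)) ∈ g := by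
      refine g.mono ?_ h7
      exact iSup_le fun _ => inf_le_right
    have h10 := (g.mem_finset_iInf _ _).1 h9 _ h8
    have h11 : (res (vx y g) l).take m = res (vx y g) m := by
      have h12 := List.prefix_iff_eq_take.1 (hc7 (vx y g) m l hlm)
      rw [hc5] at h12
      exact h12.symm
    rw [h11] at h10
    exact h10
  obtain ⟨j, hj⟩ := g3 _ claim2
  have h3 := (g4 j).2 hj
  obtain ⟨s', l, -, -, -, h6⟩ := h2 0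
  have h7 : prj (tE 𝒯 A) r ∈ g := g.mono (hpm _ _ inf_le_left) h6
  have h8 := (halg _ _).1 (hrB _ (hVN s j))
  exact g.not_bot (h8 ▸ g.mem_inf.2 ⟨h3, h7⟩)

end

/-! ## The statement -/

theorem st (hver : VerStatement.{u}) (hevx : EvxStatement.{u}) (hdix : DixStatement.{u})
    (hrfm : RfmStatement.{u}) (hkap : KapStatement.{u}) (hrapi : RapiStatement.{u})
    (hrep : RepStatement.{u}) (hmeas : MeasStatement.{u}) (hcm : CmStatement)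
    (hgnd : GndStatement.{u}) (hgmx : GmxStatement.{u}) (hcod : CodStatement)
    (hprom : PromStatement.{u, u}) (hbrn : BrnStatement.{u}) : StStatement.{u} := by
  intro 𝒯 ok h𝒯 hok htrs hall A _
  obtain ⟨Θ, nd, lt, Λ, hsys⟩ := hall A
  obtain ⟨hne, -, hgnd3, -⟩ := hgnd 𝒯 h𝒯 A
  have hce : IsCE (tE 𝒯 A) := (all_tw1 A (TX 𝒯 A) (TQ 𝒯 A)).1
  have hV0 : ∀ p : Par (tC 𝒯 A) × Qs Θ (RA (tC 𝒯 A)), ∃ v, Gp p.1 →
      HasV ok nd lt Λ p.1 p.2 v := by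
    intro p
    by_cases hp : Gp p.1
    · obtain ⟨v, hv⟩ := exists_v hce hrapi hrep hkap hrfm hcod hprom hsys p.1 hp p.2
      exact ⟨v, fun _ => hv⟩
    · exact ⟨fun _ => ⊥, fun h => absurd h hp⟩
  choose V hV using hV0
  have hΨ0 : ∀ v : List Bool → A, ∃ ψ : ℕ → ℕ → A, (∃ R : ℕ, ∀ᶠ g in ae A, ∀ m,
      {ρ : List Bool | ρ.length = m ∧ v ρ ∈ g}.encard ≤ R) →
        ∀ᶠ g in ae A, ∀ x : Cs, (∀ m, v (res x m) ∈ g) → ∃ j, x = vx (ψ j) g := by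
    intro v
    by_cases hv : ∃ R : ℕ, ∀ᶠ g in ae A, ∀ m, {ρ : List Bool | ρ.length = m ∧ v ρ ∈ g}.encard ≤ R
    · obtain ⟨R, hR⟩ := hv
      obtain ⟨ψ, hψ⟩ := hbrn A v R hR
      exact ⟨ψ, fun _ => hψ⟩
    · exact ⟨fun _ _ => ⊥, fun h => absurd h hv⟩
  choose Ψ hΨ using hΨ0
  filter_upwards [club_ncl ok nd lt Λ V, club_all fun j : ℕ => club_fun fun v => Ψ v j,
    hver (tC 𝒯 A), (hevx (tC 𝒯 A)).2.1] with N hN hΨN hverN hevN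
  intro c hc a ha0 ha
  obtain ⟨DD, EE, xs, hen⟩ := exists_enu hN
  have hgal : ∀ (r : RA A) (a : A), prj kap r ≤ a ↔ r ≤ kap a :=
    (all_alg A (RA A) kap (hkap A).1).2.2.2.2.2.2.2.2.2.2.1
  have halg := all_alg A (tC 𝒯 A) (tE 𝒯 A) hce
  -- the root
  have hroot : prj (tE 𝒯 A) c ≤ ⨆ θ, (prj kap (Λ (DD 0) θ (kap c)) : A) := by
    have h1 := hsys.ini (DD 0) (hen.Dt 0) (kap c)
    rw [(hrfm A (tC 𝒯 A) (tE 𝒯 A) hce).2.2.2.2.2.2.2.1 c] at h1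
    have h2 : (kap (prj (tE 𝒯 A) c) : RA A) ≤ kap (⨆ θ, (prj kap (Λ (DD 0) θ (kap c)) : A)) := by
      refine h1.trans (iSup_le fun θ => ?_)
      rw [← hgal]
      exact le_iSup (fun θ => (prj kap (Λ (DD 0) θ (kap c)) : A)) θ
    exact ((all_alg A (RA A) kap (hkap A).1).2.2.2.2.1 _ _).1 h2
  obtain ⟨g, hg, hg1⟩ := exists_of_ae hN.ngT ha0
  obtain ⟨θ0, hθ0, hθ0'⟩ := hg1 (g.mono (ha.trans inf_le_left) hg) _
    (hN.rt (DD 0) c (hen.DN 0) hc) (g.mono ((ha.trans inf_le_right).trans hroot) hg)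
  let s0 : XN 𝒯 A Θ N := ⟨⟨0, θ0, kap c, [], ∅⟩, hN.qs _ _ _ _ _ hθ0 (hN.kp c hc)⟩
  have hs0 : Pos Λ DD s0.1 = prj kap (Λ (DD 0) θ0 (kap c)) := by
    have h0 : (kap c : RA (tC 𝒯 A)) ⊓ cy [] = kap c := by
      rw [cy_nil hrapi]
      exact inf_top_eq _
    show (prj kap (Λ (DD 0) θ0 ((kap c : RA (tC 𝒯 A)) ⊓ cy [])) : A) = _
    rw [h0]
  have ha'0 : a ⊓ prj kap (Λ (DD 0) θ0 (kap c)) ≠ ⊥ := by
    intro h
    apply g.not_bot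
    rw [← h]
    exact g.mem_inf.2 ⟨hg, hθ0'⟩
  have ha's : a ⊓ prj kap (Λ (DD 0) θ0 (kap c)) ≤ gdx Λ DD s0 := by
    unfold gdx
    rw [hs0]
    exact inf_le_inf_right _ (ha.trans inf_le_left)
  have hcX : Countable (XN 𝒯 A Θ N) := H4.countable_in hN.cnt _
  obtain ⟨P, τ, T1, T2, T3, T4⟩ := htrs A (XN 𝒯 A Θ N) (fun s => nd s.1.θ) (gdx Λ DD)
    (edx ok nd lt Λ DD EE xs V) (phyp hkap hsys hV hN hen) s0 _ ha's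
  have hcτ := H4.countable_in hN.cnt (TX 𝒯 A)
  have hbr := branch hkap hsys hce (V := V) hen s0 rfl _ ha's P _ inf_le_left T1 T2
    (ae_all fun τ' : {τ : TX 𝒯 A // In N τ} => T3 τ'.1)
  refine ⟨tE 𝒯 A (a ⊓ prj kap (Λ (DD 0) θ0 (kap c))) ⊓ tG τ, ?_, ?_, ?_, nX nd P, nY nd P, ?_, ?_⟩
  · intro h
    have h1 := (halg.2.2.2.2.2.2.2.2.2.2.2.2.2.2.2.2.2.2 _ _).1 h
    rw [(hgmx 𝒯 h𝒯 A).2.2.1 τ, inf_top_eq] at h1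
    exact ha'0 h1
  · exact (good hok hkap hcm hcod hdix hsys hce hN hen s0 c hc rfl (nX nd P) (nY nd P) _ hbr
      (hverN _) (hevN _)).2
  · exact inf_le_left.trans ((halg.2.2.2.2.1 _ _).2 inf_le_left)
  · exact (good hok hkap hcm hcod hdix hsys hce hN hen s0 c hc rfl (nX nd P) (nY nd P) _ hbr
      (hverN _) (hevN _)).1
  · intro y
    refine sep hok hmeas hcm hcod hgnd3 hce (Ψ := Ψ) ?_ ?_ s0 _ P _ T1 T4 y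
    · intro s j
      exact hΨN j _ (hN.V _ (hN.pq _ _ (hN.par _ _ _ _ (hen.xN _) (hen.DN _) (hen.DN _)
        (hen.EN _)) s.2))
    · intro s
      exact hΨ _ (hV _ (hen.gp _)).bd

end Pool.Agent.Lib.MP_a78e1f_lc.H72
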