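import Pool.Agent.Lib.MP_a78e1f_lc.H72.Trs

/-!
# TRL: trees of paths for Laver forcing
-/

universe u v w

open Cardinal Filter MeasureTheory

namespace Pool.Agent.Lib.MP_a78e1f_lc.H72

open Pool.Agent.Lib.MP_100a6c_lc
open Pool.Agent.Lib.MP_e6fef2_lc
open Pool.Agent.Lib.MP_6d445e_gt
open Pool.Agent.Lib.MP_a78e1f_lc

section

variable {X : Type u} {nd : X → List ℕ} {s0 : X} {Q : List X → Prop}

theorem eq_pre (t t' : List ℕ) (h : t = t') : t <+: t' := h ▸ List.prefix_rfl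

/-- Above the stem, the nodes are the nodes of the paths. -/
theorem lav_node (h : CT (fun t t' => t = t') nd s0 Q) {ρ : List X} : ∀ {s : X}, Q (s :: ρ) →
    ∀ {t : List ℕ}, nd s0 <+: t → t <+: nd s → ∃ s1 ρ1, Q (s1 :: ρ1) ∧ t = nd s1 := by
  induction ρ with
  | nil =>
    intro s hs t h1 h2
    rw [h.root_eq hs] at h2
    exact ⟨s0, [], h.root, (h2.eq_of_length (le_antisymm h2.length_le h1.length_le))⟩
  | cons b κ ih =>
    intro s hs t h1 h2
    obtain ⟨hb, l, hl⟩ := h.step _ _ _ hs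
    rw [← hl] at h2
    rcases List.prefix_concat_iff.1 h2 with h3 | h3
    · exact ⟨s, b :: κ, hs, h3.trans hl⟩
    · exact ih hb h1 h3

theorem lav_len (h : CT (fun t t' => t = t') nd s0 Q) {ρ : List X} : ∀ {s : X}, Q (s :: ρ) →
    (nd s).length = (nd s0).length + ρ.length := by
  induction ρ with
  | nil =>
    intro s hs
    rw [h.root_eq hs]
    rfl
  | cons b κ ih =>
    intro s hs
    obtain ⟨hb, l, hl⟩ := h.step _ _ _ hs
    rw [← hl, List.length_append, ih hb, List.length_singleton, List.length_cons, add_assoc]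

theorem inc_pre {t t' : List ℕ} (h : t <+: t') (h' : Inc t') : Inc t :=
  List.Pairwise.sublist h.sublist h'

theorem lav_tree (h : CT (fun t t' => t = t') nd s0 Q) : IsLav (tr nd Q) where
  pre := fun t t' h1 ⟨s, ρ, h2, h3⟩ => ⟨s, ρ, h2, h1.trans h3⟩
  inc := fun t ⟨s, ρ, h2, h3⟩ => inc_pre h3 (h.inc s ρ h2)
  stem := by
    refine ⟨nd s0, ⟨s0, [], h.root, List.prefix_rfl⟩, fun t ht => h.cmp_root eq_pre ht, ?_⟩
    rintro t ⟨s, ρ, h2, h3⟩ h4 m
    obtain ⟨s1, ρ1, h5, rfl⟩ := lav_node h h2 h4 h3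
    obtain ⟨s', l, h6, h7, h8⟩ := h.inf s1 ρ1 h5 m
    exact ⟨l, h6, s', s1 :: ρ1, h8, h7 ▸ List.prefix_rfl⟩

theorem lav_dense (h : CT (fun t t' => t = t') nd s0 Q) (hfam : TFam IsLav) (σ : Set (List ℕ))
    (hσ : IsLav σ) (hsub : σ ⊆ tr nd Q) (n0 : ℕ) : ∃ s ρ, Q (s :: ρ) ∧ n0 ≤ ρ.length ∧
      ∀ m, ∃ k, m ≤ k ∧ nd s ++ [k] ∈ σ := by
  obtain ⟨st, hst, -, hspl⟩ := hσ.stem
  obtain ⟨t, ht, hst', hlen⟩ := long_ext (hfam.ext σ hσ) hst (n0 + (nd s0).length)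
  have h1 : nd s0 <+: t := by
    rcases h.cmp_root eq_pre (hsub ht) with hc | hc
    · have := hc.length_le
      have h2 := hc.eq_of_length (by omega)
      rw [h2]
    · exact hc
  obtain ⟨s, ρ, h2, h3⟩ := hsub ht
  obtain ⟨s1, ρ1, h4, rfl⟩ := lav_node h h2 h1 h3
  have h5 := lav_len h h4
  exact ⟨s1, ρ1, h4, by omega, hspl _ ht hst'⟩

end

theorem trl (hfam : FamStatement) (hgnd : GndStatement.{u}) (hgmx : GmxStatement.{u})
    (hltree : LtreeStatement.{u}) : TrlStatement.{u} :=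
  trs_gen hgnd hgmx hltree hfam.2.1 eq_pre (fun _ _ _ _ h => lav_tree h)
    fun _ _ _ _ h σ hσ hsub n0 => lav_dense h hfam.2.1 σ hσ hsub n0

end Pool.Agent.Lib.MP_a78e1f_lc.H72
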