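import Pool.Agent.Lib.MP_a78e1f_lc.H72.Tnes

/-!
# TNE: no embedding, for the extension by an iteration
-/

universe u v w

open Cardinal Filter MeasureTheory

open scoped symmDiff

namespace Pool.Agent.Lib.MP_a78e1f_lc.H72

open Pool.Agent.Lib.MP_100a6c_lc
open Pool.Agent.Lib.MP_e6fef2_lc
open Pool.Agent.Lib.MP_6d445e_gt (Idw Ult ae ae_all ae_iSup ae_iInf le_of_ae exists_of_ae ae_pull
  exists_name)
open Pool.Agent.Lib.MP_a78e1f_lc

section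

variable {B : Type u} [CompleteBooleanAlgebra B] (hp : Pf B)

include hp

variable {T : Type u} {Γ : B} {x F : T → ℕ → B} {z : W.{u} → ℕ → B}

theorem cons_F0 (hT : TEmb Γ x z F)
    (hgr : ∀ r : ℕ → Bool, ∃ t, ∀ n, x t n = if r n then ⊤ else ⊥) : Cons Γ (F0 Γ x F) := by
  intro σ σ' τ τ' h1 h2
  by_contra h3
  obtain ⟨h, hh, h4⟩ := exists_of_ae (relp hp hT hgr) h3
  obtain ⟨h5, h6⟩ := h.mem_inf.1 hh
  obtain ⟨h7, h8⟩ := h.mem_inf.1 h5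
  exact h2 ((h4 h7).cf σ σ' τ τ' h1 h8 h6)

theorem cons_G0 (hT : TEmb Γ x z F)
    (hgr : ∀ r : ℕ → Bool, ∃ t, ∀ n, x t n = if r n then ⊤ else ⊥) : Cons Γ (G0 Γ x F) := by
  intro σ σ' τ τ' h1 h2
  by_contra h3
  obtain ⟨h, hh, h4⟩ := exists_of_ae (relp hp hT hgr) h3
  obtain ⟨h5, h6⟩ := h.mem_inf.1 hh
  obtain ⟨h7, h8⟩ := h.mem_inf.1 h5
  exact h2 ((h4 h7).cg σ σ' τ τ' h1 h8 h6)

theorem le_apv (P : List Bool → List Bool → B) (X Y Y' : ℕ → B) (c : B)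
    (hY : ∀ᶠ h in ae B, c ∈ h → vx Y h = vx Y' h)
    (hl : ∀ᶠ h in ae B, c ∈ h → Lim (fun σ τ => P σ τ ∈ h) (vx X h) (vx Y h)) :
    c ≤ apv P X Y' := by
  refine le_iInf fun n => le_of_ae ?_
  filter_upwards [hY, hl] with h h1 h2 hc
  obtain ⟨k, hk⟩ := h2 hc n
  have h3 : pre X (res (vx X h) k) ∈ h := by rw [hp.pre, hp.len]
  have h4 : pre Y' (res (vx Y h) n) ∈ h := by rw [hp.pre, hp.len, h1 hc]
  refine h.mono ?_ (h.mem_inf.2 ⟨h.mem_inf.2 ⟨h3, h4⟩, hk⟩)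
  exact le_iSup_of_le (res (vx X h) k) (le_iSup_of_le (res (vx Y h) n)
    (le_iSup_of_le (hp.len _ _) le_rfl))

theorem le_apv' (P : List Bool → List Bool → B) (X X' Y : ℕ → B) (c : B)
    (hX : ∀ᶠ h in ae B, c ∈ h → vx X h = vx X' h)
    (hl : ∀ᶠ h in ae B, c ∈ h → Lim (fun σ τ => P σ τ ∈ h) (vx X h) (vx Y h)) :
    c ≤ apv P X' Y := by
  refine le_iInf fun n => le_of_ae ?_
  filter_upwards [hX, hl] with h h1 h2 hc
  obtain ⟨k, hk⟩ := h2 hc n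
  have h3 : pre X' (res (vx X h) k) ∈ h := by rw [hp.pre, hp.len, h1 hc]
  have h4 : pre Y (res (vx Y h) n) ∈ h := by rw [hp.pre, hp.len]
  refine h.mono ?_ (h.mem_inf.2 ⟨h.mem_inf.2 ⟨h3, h4⟩, hk⟩)
  exact le_iSup_of_le (res (vx X h) k) (le_iSup_of_le (res (vx Y h) n)
    (le_iSup_of_le (hp.len _ _) le_rfl))

theorem le_apvs (hmeas : MeasStatement.{u}) (hT : TEmb Γ x z F) (t : T) (ξ : W.{u}) :
    Γ ⊓ eqr (F t) (z ξ) ≤
      apv (F0 Γ x F) (x t) (z ξ) ⊓ apv (G0 Γ x F) (z ξ) (x t) := by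
  have h1 : ∀ᶠ h in ae B, Γ ⊓ eqr (F t) (z ξ) ∈ h → vx (F t) h = vx (z ξ) h := by
    filter_upwards [(hmeas B).2.2.2.2.2.2.2.2 (F t) (z ξ)] with h h1 h2
    exact h1.1 (h.mem_inf.1 h2).2
  refine le_inf (le_apv hp _ _ (F t) _ _ h1 ?_) (le_apv' hp _ (F t) _ _ _ h1 ?_)
  · filter_upwards [lim_F hp hT t] with h h2 h3
    exact h2 (h.mem_inf.1 h3).1
  · filter_upwards [lim_G hp hT t] with h h2 h3
    exact h2 (h.mem_inf.1 h3).1

end

/-! ## The statement -/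

theorem tne (hkeyn : KeynStatement.{u}) (hind : IndStatement.{u}) (hsml : SmlStatement.{u})
    (hkcn : KcnStatement.{u}) (hrlb : RlbStatement.{u}) (hcol : ColStatement.{u})
    (hprxc : PrxcStatement.{u}) (hprxi : PrxiStatement.{u}) (hprxe : PrxeStatement.{u})
    (hprxlim : PrxlimStatement.{u}) (hmeas : MeasStatement.{u}) (hcm : CmStatement) :
    TneStatement.{u} := by
  intro κ I _ _ hI 𝒯 hfam hst hbit hprx A _ f B _ e hcsi
  obtain ⟨hbdd, hW, -, -, -⟩ := Pool.Agent.Lib.MP_6d445e_gt.H20.idw.2 κ I hI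
  have hne : Nonempty I := by
    rw [← Cardinal.mk_ne_zero_iff, hI.card]
    exact (Cardinal.aleph0_pos.trans hI.unc).ne'
  have hpres : Pres.{u} (fun A C _ _ f => PRX f) :=
    ⟨fun A B C _ _ _ f g => hprxc A B C f g, fun A B _ _ f hf => hprxi A B f hf,
      fun A B _ _ f hf => hprxe A B f hf, hprxlim⟩
  obtain ⟨h1, h2, h3, h4, h5, h6⟩ := hind _ hpres 𝒯 hfam hprx I A f B e hcsi
  have hpe : ∀ i j, i ≤ j → PE (f i j) := fun i j hij =>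
    hpres.pe _ _ _ (hcsi.ch.ce i j hij) (h1 i j hij)
  obtain ⟨M, -, hM2, hM3, -⟩ := hsml κ I hI 𝒯 hfam A f B e hcsi hpe h4
  obtain ⟨-, hold⟩ := hkcn κ I hI A f M hcsi.ch hcsi.dp hM2 hM3 B e hcsi.top hcsi.tdp
  intro z
  obtain ⟨i, z', hz'⟩ := hrlb κ I hI A f B e hcsi.top hold W.{u} hW z
  obtain ⟨i', hi'⟩ := hbdd {i} (by
    rw [Cardinal.mk_singleton]
    exact Cardinal.one_lt_aleph0.trans hI.unc)
  have hii' : i < i' := hi' i rfl
  obtain ⟨j0, hj0⟩ := exists_covBy_of_wellFoundedLT (a := i) (not_isMax_of_lt hii')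
  obtain ⟨φ, hφ, hφs, hφf⟩ := hcsi.succ i j0 hj0
  obtain ⟨j, cx, hjj, hcx⟩ := hcol κ I hI 𝒯 hbit A f B e hcsi j0
  have hgr : ∀ r : ℕ → Bool, ∃ t : ℕ → A j0, ∀ n, e j0 (t n) = if r n then (⊤ : B) else ⊥ := by
    intro r
    refine ⟨fun n => if r n then ⊤ else ⊥, fun n => ?_⟩
    have ha := all_alg (A j0) B (e j0) (hcsi.top.ce j0)
    by_cases hr : r n = true
    · simp only [hr, if_true]
      exact ha.1
    · simp only [hr]
      exact ha.2.1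
  refine ⟨ℕ → A j0, fun t n => e j0 (t n), ⟨fun ξ n => e j (cx ξ n), fun t => ?_⟩,
    hgr, fun Γ hΓ F hT => ?_⟩
  · have ha := all_alg (A j) B (e j) (hcsi.top.ce j)
    have h7 := ha.2.2.2.2.2.1 W.{u} fun ξ => eqr (fun n => f j0 j (t n)) (cx ξ)
    rw [hcx t, ha.1] at h7
    rw [h7]
    refine iSup_congr fun ξ => ?_
    rw [eqr_map (hcsi.top.ce j)]
    congr 1
    funext n
    exact (hcsi.top.comp j0 j hjj (t n)).symm
  · have hp : Pf B := pf hmeas hcm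
    have hφe : IsCE fun c => e j0 (φ c) :=
      Pool.Agent.Lib.MP_e6fef2_lc.H57.ce_comp hφ (hcsi.top.ce j0)
    refine hkeyn 𝒯 hfam hst (A i) B (fun c => e j0 (φ c)) (h4 i) hφe
      (hprxc _ _ _ φ (e j0) hφ (hcsi.top.ce j0) (hprxi _ _ φ hφ hφs) (h2 j0)) Γ hΓ
      (F0 Γ (fun (t : ℕ → A j0) n => e j0 (t n)) F)
      (G0 Γ (fun (t : ℕ → A j0) n => e j0 (t n)) F)
      (cons_F0 hp hT hgr) (cons_G0 hp hT hgr) fun X => ?_
    have h8 := hT.val fun n => φ (X n)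
    have h9 : Γ ≤ ⨆ ξ, Γ ⊓ eqr (F fun n => φ (X n)) (z ξ) := by
      rw [← inf_iSup_eq]
      exact le_inf le_rfl h8
    refine h9.trans (iSup_le fun ξ => (le_apvs hp hmeas hT (fun n => φ (X n)) ξ).trans ?_)
    have h10 : z ξ = fun n => e j0 (φ (tE 𝒯 (A i) (z' ξ n))) := by
      funext n
      rw [hφf, hz', hcsi.top.comp i j0 hj0.le]
    rw [h10]
    exact le_iSup (fun y : ℕ → A i => apv (F0 Γ (fun (t : ℕ → A j0) n => e j0 (t n)) F)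
      (fun n => e j0 (φ (X n))) (fun n => e j0 (φ (tE 𝒯 (A i) (y n)))) ⊓
      apv (G0 Γ (fun (t : ℕ → A j0) n => e j0 (t n)) F)
      (fun n => e j0 (φ (tE 𝒯 (A i) (y n)))) (fun n => e j0 (φ (X n)))) (z' ξ)

end Pool.Agent.Lib.MP_a78e1f_lc.H72
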