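import Pool.Agent.Lib.MP_a78e1f_lc.H72.Rel
import Pool.Agent.Lib.MP_6d445e_gt.H20.Idw

/-!
# TNES: no embedding, for the extension by an iteration of Sacks forcing
-/

universe u v w

open Cardinal Filter MeasureTheory

open scoped symmDiff

namespace Pool.Agent.Lib.MP_a78e1f_lc.H72

open Pool.Agent.Lib.MP_100a6c_lc
open Pool.Agent.Lib.MP_e6fef2_lc
open Pool.Agent.Lib.MP_6d445e_gt (Idw Ult ae ae_all ae_iSup ae_iInf le_of_ae exists_of_ae ae_pull
  exists_name)
open Pool.Agent.Lib.MP_a78e1f_lc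

/-! ## Complete embeddings and `eqr` -/

section

variable {A C : Type u} [CompleteBooleanAlgebra A] [CompleteBooleanAlgebra C] {f : A → C}

theorem eqr_map (hf : IsCE f) (x y : ℕ → A) :
    f (eqr x y) = eqr (fun n => f (x n)) fun n => f (y n) := by
  have h := all_alg A C f hf
  unfold eqr
  rw [h.2.2.2.2.2.2.2.2.1 fun n => (x n ⊓ y n) ⊔ ((x n)ᶜ ⊓ (y n)ᶜ)]
  refine iInf_congr fun n => ?_
  rw [h.2.2.2.1, h.2.2.1, h.2.2.1, hf.compl, hf.compl]

theorem vx_pull (hf : IsCE f) (x : ℕ → A) (h : Ult C) :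
    vx (fun n => f (x n)) h = vx x (h.pull hf) := rfl

end

/-! ## Measurability -/

theorem dec_meas (dec : Cs → Bool) (hdec : ∃ L, ∀ z z' : Cs, (∀ k < L, z k = z' k) →
    dec z = dec z') : MeasurableSet {z : Cs | dec z = true} := by
  obtain ⟨L, hL⟩ := hdec
  let r : Cs → (Fin L → Bool) := fun z i => z i
  have hr : Measurable r := measurable_pi_iff.2 fun i => measurable_pi_apply _
  let φ : (Fin L → Bool) → Bool := fun s => dec fun k => if h : k < L then s ⟨k, h⟩ else false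
  have h1 : dec = φ ∘ r := by
    funext z
    refine hL _ _ fun k hk => ?_
    simp [r, hk]
  have h2 : Measurable dec := by
    rw [h1]
    exact (measurable_of_finite φ).comp hr
  exact h2 (MeasurableSet.singleton true)

section

variable {A : Type u} [CompleteBooleanAlgebra A]

/-- The name of a measurable set of digits. -/
theorem name_of (hmeas : MeasStatement.{u}) (X : ℕ → A) (E : ℕ → Set Cs)
    (hE : ∀ n, MeasurableSet (E n)) :
    ∃ ψ : ℕ → A, ∀ᶠ g in ae A, ∀ n, ψ n ∈ g ↔ vx X g ∈ E n :=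
  exists_name fun n => (hmeas A).2.2.1 X (Prod.snd ⁻¹' E n) (measurable_snd (hE n))

end

/-! ## The contradiction -/

theorem contra (hmeas : MeasStatement.{u}) (hcm : CmStatement) (hsab : SabStatement.{u})
    (hnews : NewsStatement.{u}) {A A' B : Type u} [CompleteBooleanAlgebra A]
    [CompleteBooleanAlgebra A'] [CompleteBooleanAlgebra B] (f : A → A') (e : A → B) (e' : A' → B)
    (he : IsCE e) (he' : IsCE e') (hfe : ∀ a, e' (f a) = e a) (φ : tC IsSac A → A')
    (hφ : IsCE φ) (hφf : ∀ a, φ (tE IsSac A a) = f a) (hB : SkP B) (z' : W.{u} → ℕ → A)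
    (Γ : B) (hΓ : Γ ≠ ⊥) (F : (ℕ → A') → ℕ → B)
    (hT : TEmb Γ (fun (t : ℕ → A') n => e' (t n)) (fun ξ n => e (z' ξ n)) F) : False := by
  have hp : Pf B := pf hmeas hcm
  have hgr : ∀ r : ℕ → Bool, ∃ t : ℕ → A', ∀ n, e' (t n) = if r n then (⊤ : B) else ⊥ := by
    intro r
    refine ⟨fun n => if r n then ⊤ else ⊥, fun n => ?_⟩
    have h := all_alg A' B e' he'
    by_cases hr : r n = true
    · simp only [hr, if_true]
      exact h.1
    · simp only [hr]
      exact h.2.1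
  obtain ⟨b, hb0, hbΓ, Ξ, hΞ, dec, hdec, hlim⟩ := hsab B hB Γ hΓ _ _ (relp hp hT hgr)
  obtain ⟨R0, hR0⟩ := hnews A
  -- the point
  obtain ⟨t, ht⟩ := name_of hmeas (fun n => φ (R0 n)) (fun n => {x | Ξ x n = true}) fun n =>
    ((measurable_pi_apply n).comp hΞ.measurable) (MeasurableSet.singleton true)
  have hsup : b ≤ ⨆ ξ, eqr (F t) (fun n => e (z' ξ n)) := hbΓ.trans (hT.val t)
  obtain ⟨h0, hh0, hh1⟩ := exists_of_ae (ae_iSup fun ξ => eqr (F t) (fun n => e (z' ξ n))) hb0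
  obtain ⟨ξ, hξ⟩ := hh1.1 (h0.mono hsup hh0)
  have hb1 : b ⊓ eqr (F t) (fun n => e (z' ξ n)) ≠ ⊥ := fun h =>
    h0.not_bot (h ▸ h0.mem_inf.2 ⟨hh0, hξ⟩)
  obtain ⟨ψ, hψ⟩ := name_of hmeas (z' ξ) (fun n => {x | dec n x = true}) fun n =>
    dec_meas (dec n) (hdec n)
  obtain ⟨h, hbh, h1, h2, h3, h4, h5, h6⟩ := exists_of_ae (hlim.and ((lim_F hp hT t).and
    ((ae_pull he' ht).and ((ae_pull he hψ).and (((hmeas B).2.2.2.2.2.2.2.2 (F t)
      (fun n => e (z' ξ n))).and ((hmeas B).2.2.2.2.2.2.2.2 (fun n => e' (φ (R0 n)))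
      (fun n => e (ψ n)))))))) hb1
  obtain ⟨hb', heq⟩ := h.mem_inf.1 hbh
  have e1 : vx (fun n => e' (t n)) h = Ξ (vx (fun n => φ (R0 n)) (h.pull he')) := by
    rw [vx_pull he']
    funext n
    by_cases hn : t n ∈ h.pull he'
    · have := (h3 n).1 hn
      simp only [Set.mem_ofPred_eq] at this
      rw [this]
      simpa [vx] using hn
    · have h7 := fun h8 => hn ((h3 n).2 h8)
      simp only [Set.mem_ofPred_eq] at h7
      have h8 : Ξ (vx (fun n => φ (R0 n)) (h.pull he')) n = false := by simpa using h7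
      rw [h8]
      simpa [vx] using hn
  have e2 := h2 (h.mono hbΓ hb')
  rw [e1] at e2
  have e3 := h1 hb' _ _ e2
  have e4 : vx (F t) h = vx (z' ξ) (h.pull he) := by
    rw [← vx_pull he]
    exact h5.1 heq
  have e5 : vx (fun n => e' (φ (R0 n))) h = vx (fun n => e (ψ n)) h := by
    rw [vx_pull he' (fun n => φ (R0 n)), vx_pull he ψ]
    funext n
    rw [← e3 n, e4]
    by_cases hn : ψ n ∈ h.pull he
    · have := (h4 n).1 hn
      simp only [Set.mem_ofPred_eq] at this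
      rw [this]
      simpa [vx] using hn
    · have h7 := fun h8 => hn ((h4 n).2 h8)
      simp only [Set.mem_ofPred_eq] at h7
      have h8 : dec n (vx (z' ξ) (h.pull he)) = false := by simpa using h7
      rw [h8]
      simpa [vx] using hn
  have e6 := h6.2 e5
  have e7 : (fun n => e (ψ n)) = fun n => e' (φ (tE IsSac A (ψ n))) := by
    funext n
    rw [hφf, hfe]
  have e8 : eqr (fun n => e' (φ (R0 n))) (fun n => e (ψ n)) = ⊥ := by
    rw [e7, ← eqr_map he' (fun n => φ (R0 n)) (fun n => φ (tE IsSac A (ψ n))),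
      ← eqr_map hφ R0 (fun n => tE IsSac A (ψ n)), hR0,
      (all_alg _ _ φ hφ).2.1, (all_alg _ _ e' he').2.1]
  rw [e8] at e6
  exact h.not_bot e6

/-! ## The statement -/

theorem tnes (hind : IndStatement.{u}) (hsml : SmlStatement.{u}) (hkcn : KcnStatement.{u})
    (hrlb : RlbStatement.{u}) (hcol : ColStatement.{u}) (hprcf : PrcfStatement.{u})
    (hprif : PrifStatement.{u}) (hprlimf : PrlimfStatement.{u}) (hprsac : PrsacStatement.{u})
    (hsackp : SackpStatement.{u}) (hsab : SabStatement.{u}) (hnews : NewsStatement.{u})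
    (hfam : FamStatement) (hmeas : MeasStatement.{u}) (hcm : CmStatement) :
    TnesStatement.{u} := by
  intro κ I _ _ hI hbit A _ f B _ e hcsi
  obtain ⟨hbdd, hW, -, -, -⟩ := Pool.Agent.Lib.MP_6d445e_gt.H20.idw.2 κ I hI
  have hne : Nonempty I := by
    rw [← Cardinal.mk_ne_zero_iff, hI.card]
    exact (Cardinal.aleph0_pos.trans hI.unc).ne'
  have hpres : Pres.{u} (fun A C _ _ f => PRESS f) :=
    ⟨fun A B C _ _ _ f g => hprcf A B C f g, fun A B _ _ f hf => (hprif A B f hf).1,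
      fun A B _ _ f hf => (hprif A B f hf).2, hprlimf⟩
  obtain ⟨h1, h2, h3, h4, h5, h6⟩ := hind _ hpres IsSac hfam.2.2 hprsac I A f B e hcsi
  have hpe : ∀ i j, i ≤ j → PE (f i j) := fun i j hij =>
    hpres.pe _ _ _ (hcsi.ch.ce i j hij) (h1 i j hij)
  obtain ⟨M, -, hM2, hM3, -⟩ := hsml κ I hI IsSac hfam.2.2 A f B e hcsi hpe h4
  obtain ⟨-, hold⟩ := hkcn κ I hI A f M hcsi.ch hcsi.dp hM2 hM3 B e hcsi.top hcsi.tdp
  -- the Sacks property
  obtain ⟨i0, -, hi0⟩ := (IsWellFounded.wf (r := ((· < ·) : I → I → Prop))).has_min Set.univ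
    ⟨hne.some, trivial⟩
  obtain ⟨hz1, hz2⟩ := hcsi.zero i0 fun j => not_lt.1 (hi0 j trivial)
  have hskp : SkP B := hsackp (A i0) B (e i0) (hcsi.top.ce i0) hz1 hz2 (h2 i0)
  intro z
  obtain ⟨i, z', hz'⟩ := hrlb κ I hI A f B e hcsi.top hold W.{u} hW z
  obtain ⟨i', hi'⟩ := hbdd {i} (by
    rw [Cardinal.mk_singleton]
    exact Cardinal.one_lt_aleph0.trans hI.unc)
  have hii' : i < i' := hi' i rfl
  obtain ⟨j0, hj0⟩ := exists_covBy_of_wellFoundedLT (a := i) (not_isMax_of_lt hii')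
  obtain ⟨φ, hφ, -, hφf⟩ := hcsi.succ i j0 hj0
  obtain ⟨j, cx, hjj, hcx⟩ := hcol κ I hI IsSac hbit A f B e hcsi j0
  refine ⟨ℕ → A j0, fun t n => e j0 (t n), ⟨fun ξ n => e j (cx ξ n), fun t => ?_⟩,
    fun r => ?_, fun Γ hΓ F hT => ?_⟩
  · have ha := all_alg (A j) B (e j) (hcsi.top.ce j)
    have h7 := ha.2.2.2.2.2.1 W.{u} fun ξ => eqr (fun n => f j0 j (t n)) (cx ξ)
    rw [hcx t, ha.1] at h7
    rw [h7]
    refine iSup_congr fun ξ => ?_
    rw [eqr_map (hcsi.top.ce j)]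
    congr 1
    funext n
    exact (hcsi.top.comp j0 j hjj (t n)).symm
  · refine ⟨fun n => if r n then ⊤ else ⊥, fun n => ?_⟩
    have ha := all_alg (A j0) B (e j0) (hcsi.top.ce j0)
    by_cases hr : r n = true
    · simp only [hr, if_true]
      exact ha.1
    · simp only [hr]
      exact ha.2.1
  · have hz : z = fun ξ n => e i (z' ξ n) := funext fun ξ => funext fun n => hz' ξ n
    rw [hz] at hT
    exact contra hmeas hcm hsab hnews (f i j0) (e i) (e j0) (hcsi.top.ce i) (hcsi.top.ce j0)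
      (hcsi.top.comp i j0 hj0.le) φ hφ hφf hskp z' Γ hΓ F hT

end Pool.Agent.Lib.MP_a78e1f_lc.H72
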