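import Pool.Agent.Lib.MP_a78e1f_lc.H72.Dens

/-!
# ST, part 2: a branch of states
-/

universe u v w

open Cardinal Filter MeasureTheory

namespace Pool.Agent.Lib.MP_a78e1f_lc.H72

open Pool.Agent.Lib.MP_100a6c_lc
open Pool.Agent.Lib.MP_c5d73d_lc.F (pr)
open Pool.Agent.Lib.MP_e6fef2_lc
open Pool.Agent.Lib.MP_6d445e_gt
open Pool.Agent.Lib.MP_a78e1f_lc

section

variable {𝒯 : Set (List ℕ) → Prop} {ok : List ℕ → List ℕ → Prop} {A : Type u}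
  [CompleteBooleanAlgebra A] {Θ : Type u} {nd : Θ → List ℕ} {lt : Θ → Θ → Prop}
  {Λ : Set (tC 𝒯 A) → Θ → RA (tC 𝒯 A) → RA A}

variable (DD : ℕ → Set (tC 𝒯 A)) (EE : ℕ → Set (Pt (tC 𝒯 A))) (xs : ℕ → ℕ → RA (tC 𝒯 A)) in
/-- The parameters of the steps from the states with number `n`. -/
def pm (n : ℕ) : Par (tC 𝒯 A) := ⟨xs n, DD n, DD (n + 1), EE n⟩

variable (ok nd lt Λ) in
/-- A branch of states. -/
structure Br (N : Set El.{u}) (DD : ℕ → Set (tC 𝒯 A)) (EE : ℕ → Set (Pt (tC 𝒯 A)))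
    (xs : ℕ → ℕ → RA (tC 𝒯 A)) (g : Ult A) (ξ : ℕ → Qs Θ (RA (tC 𝒯 A))) (lk : ℕ → ℕ) : Prop where
  inN : ∀ j, In N (ξ j)
  n0 : (ξ 0).n = 0
  pos : ∀ j, prj kap (Λ (DD (ξ j).n) (ξ j).θ ((ξ j).e ⊓ cy (ξ j).σ)) ∈ g
  stp : ∀ j, Stp 𝒯 ok nd lt (pm DD EE xs (ξ j).n) (lk j) (ξ j) (ξ (j + 1))

variable {N : Set El.{u}} {DD : ℕ → Set (tC 𝒯 A)} {EE : ℕ → Set (Pt (tC 𝒯 A))}
    {xs : ℕ → ℕ → RA (tC 𝒯 A)} {g : Ult A} {ξ : ℕ → Qs Θ (RA (tC 𝒯 A))} {lk : ℕ → ℕ}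

namespace Br

theorem nstep (hb : Br ok nd lt Λ N DD EE xs g ξ lk) (j : ℕ) :
    (ξ (j + 1)).n = (ξ j).n ∨ (ξ (j + 1)).n = (ξ j).n + 1 := by
  rcases (hb.stp j).2.2.2.2 with h | h
  · exact Or.inl h.1
  · exact Or.inr h.1

theorem nmono (hb : Br ok nd lt Λ N DD EE xs g ξ lk) : Monotone fun j => (ξ j).n := by
  refine monotone_nat_of_le_succ fun j => ?_
  rcases hb.nstep j with h | h <;> omega

theorem eanti (hb : Br ok nd lt Λ N DD EE xs g ξ lk) {i j : ℕ} (hij : i ≤ j) :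
    (ξ j).e ≤ (ξ i).e := by
  induction j, hij using Nat.le_induction with
  | base => exact le_rfl
  | succ j hj ih => exact (hb.stp j).2.1.trans ih

theorem smono (hb : Br ok nd lt Λ N DD EE xs g ξ lk) {i j : ℕ} (hij : i ≤ j) :
    (ξ i).σ <+: (ξ j).σ := by
  induction j, hij using Nat.le_induction with
  | base => exact List.prefix_rfl
  | succ j hj ih => exact ih.trans (hb.stp j).2.2.1

theorem ndstep (hok : ∀ t t', ok t t' → t <+: t') (hb : Br ok nd lt Λ N DD EE xs g ξ lk) (j : ℕ) :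
    nd (ξ j).θ ++ [lk j] <+: nd (ξ (j + 1)).θ := hok _ _ (hb.stp j).1

theorem ndmono (hok : ∀ t t', ok t t' → t <+: t') (hb : Br ok nd lt Λ N DD EE xs g ξ lk)
    {i j : ℕ} (hij : i ≤ j) : nd (ξ i).θ <+: nd (ξ j).θ := by
  induction j, hij using Nat.le_induction with
  | base => exact List.prefix_rfl
  | succ j hj ih => exact (ih.trans (List.prefix_append _ _)).trans (hb.ndstep hok j)

theorem ndlen (hok : ∀ t t', ok t t' → t <+: t') (hb : Br ok nd lt Λ N DD EE xs g ξ lk) (j : ℕ) :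
    j ≤ (nd (ξ j).θ).length := by
  induction j with
  | zero => exact Nat.zero_le _
  | succ j ih =>
    have h := (hb.ndstep hok j).length_le
    rw [List.length_append, List.length_singleton] at h
    omega

/-- Steps of type A occur infinitely often. -/
theorem exA0 (hwf : WellFounded lt) (hb : Br ok nd lt Λ N DD EE xs g ξ lk) (j0 : ℕ) :
    ∃ j, j0 ≤ j ∧ (ξ (j + 1)).n = (ξ j).n + 1 := by
  by_contra hcon
  push Not at hcon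
  obtain ⟨m, ⟨j, hj, rfl⟩, hmin⟩ := hwf.has_min {θ | ∃ j, j0 ≤ j ∧ (ξ j).θ = θ} ⟨_, j0, le_rfl, rfl⟩
  rcases (hb.stp j).2.2.2.2 with h | h
  · exact hmin _ ⟨j + 1, by omega, rfl⟩ h.2
  · exact hcon j hj h.1

theorem nunb (hwf : WellFounded lt) (hb : Br ok nd lt Λ N DD EE xs g ξ lk) (i : ℕ) :
    ∃ j, i ≤ (ξ j).n := by
  induction i with
  | zero => exact ⟨0, Nat.zero_le _⟩
  | succ i ih =>
    obtain ⟨j, hj⟩ := ih
    obtain ⟨k, hk, hk'⟩ := hb.exA0 hwf j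
    have := hb.nmono hk
    simp only [] at this
    exact ⟨k + 1, by omega⟩

theorem exA (hwf : WellFounded lt) (hb : Br ok nd lt Λ N DD EE xs g ξ lk) (i : ℕ) :
    ∃ j, (ξ j).n = i ∧ (ξ (j + 1)).n = i + 1 := by
  classical
  have h := hb.nunb hwf (i + 1)
  have h1 := Nat.find_spec h
  have h2 : Nat.find h ≠ 0 := by
    intro h0
    rw [h0, hb.n0] at h1
    omega
  obtain ⟨j, hj⟩ := Nat.exists_eq_succ_of_ne_zero h2
  have h3 : ¬ (i + 1 ≤ (ξ j).n) := Nat.find_min h (by omega)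
  rw [hj] at h1
  refine ⟨j, ?_⟩
  rcases hb.nstep j with h4 | h4 <;> simp only [Nat.succ_eq_add_one] at h1 <;> omega

theorem slen (hwf : WellFounded lt) (hb : Br ok nd lt Λ N DD EE xs g ξ lk) (i : ℕ) :
    ∃ j, i ≤ (ξ j).σ.length := by
  obtain ⟨j, h1, h2⟩ := hb.exA hwf i
  rcases (hb.stp j).2.2.2.2 with h | h
  · omega
  · exact ⟨j + 1, h1 ▸ h.2.1⟩

theorem stpA (hb : Br ok nd lt Λ N DD EE xs g ξ lk) {i j : ℕ} (h1 : (ξ j).n = i)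
    (h2 : (ξ (j + 1)).n = i + 1) :
    (∃ (b : A) (τ : TX 𝒯 A), (∃ d ∈ DD i, tE 𝒯 A b ⊓ tG τ ≤ d) ∧
       (ξ (j + 1)).e ≤ kap (tE 𝒯 A b ⊓ tG τ)) ∧
     ∃ ε : List Bool → tC 𝒯 A, Avd ε (EE i ∪ (rep (ξ j).e)ᶜ) ∧ (ξ (j + 1)).e ≤ cl ε := by
  rcases (hb.stp j).2.2.2.2 with h | h
  · omega
  · have h3 := h.2.2
    rw [h1] at h3
    exact h3

theorem ne (hkap : KapStatement.{u}) (hsys : Sys 𝒯 ok A Θ nd lt Λ) (hD : ∀ n, sSup (DD n) = ⊤)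
    (hb : Br ok nd lt Λ N DD EE xs g ξ lk) (j : ℕ) : (ξ j).e ⊓ cy (ξ j).σ ≠ ⊥ := by
  intro h
  have h1 := hb.pos j
  rw [h, addm_bot (hsys.add _ (hD _) _)] at h1
  have h2 : prj kap (⊥ : RA A) = ⊥ :=
    ((all_alg A (RA A) kap (hkap A).1).2.2.2.2.2.2.2.2.2.2.2.2.2.2.2.2.2.1 ⊥).2 rfl
  rw [h2] at h1
  exact g.not_bot h1

variable {h : Ult (tC 𝒯 A)} {X Y : ℕ → tC 𝒯 A}

/-- The values of the random point. -/
theorem res_eq (hb : Br ok nd lt Λ N DD EE xs g ξ lk)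
    (hX : ∀ i, X i ∈ h ↔ ∃ j, (ξ j).σ[i]? = some true) (j : ℕ) :
    res (vx X h) (ξ j).σ.length = (ξ j).σ := by
  have key : ∀ i, i < (ξ j).σ.length → (X i ∈ h ↔ (ξ j).σ[i]? = some true) := by
    intro i hi
    rw [hX i]
    refine ⟨?_, fun h1 => ⟨j, h1⟩⟩
    rintro ⟨k, hk⟩
    rcases le_total j k with hjk | hjk
    · obtain ⟨l, hl⟩ := hb.smono hjk
      rw [← hl, List.getElem?_append_left hi] at hk
      exact hk
    · obtain ⟨l, hl⟩ := hb.smono hjk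
      rw [← hl]
      have hk' : i < (ξ k).σ.length := by
        by_contra hc
        rw [List.getElem?_eq_none (by omega)] at hk
        simp at hk
      rw [List.getElem?_append_left hk']
      exact hk
  refine List.ext_getElem (by simp [res]) fun i h1 h2 => ?_
  simp only [res, List.getElem_map, List.getElem_range, vx]
  have h3 := key i h2
  rw [List.getElem?_eq_getElem h2, Option.some_inj] at h3
  by_cases h4 : X i ∈ h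
  · rw [h3.1 h4]
    simpa using h4
  · have h5 : (ξ j).σ[i] = false := by
      by_contra hc
      exact h4 (h3.2 (by simpa using hc))
    rw [h5]
    simpa using h4

theorem nunb' (hwf : WellFounded lt) (hb : Br ok nd lt Λ N DD EE xs g ξ lk) (i : ℕ) :
    ∃ j, ∀ k, j ≤ k → i ≤ (ξ k).n := by
  obtain ⟨j, hj⟩ := hb.nunb hwf i
  exact ⟨j, fun k hk => hj.trans (hb.nmono hk)⟩

/-- The restrictions of the random point. -/
theorem cy_le (hkap : KapStatement.{u}) (hcm : CmStatement) (hwf : WellFounded lt)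
    (hb : Br ok nd lt Λ N DD EE xs g ξ lk)
    (hX : ∀ i, X i ∈ h ↔ ∃ j, (ξ j).σ[i]? = some true) (k j : ℕ) :
    ∃ i, j ≤ i ∧ (cy (ξ i).σ : RA (tC 𝒯 A)) ≤ cy (res (vx X h) k) := by
  obtain ⟨i, hi⟩ := hb.slen hwf k
  have h1 := (hb.smono (le_max_left i j)).length_le
  refine ⟨max i j, le_max_right _ _, (hkap (tC 𝒯 A)).2.2.2.2.2.1 _ _ ?_⟩
  rw [← hb.res_eq hX (max i j)]
  exact hcm.2.2.2.2.2.2.1 _ _ _ (hi.trans h1)

theorem cut_aux (hok : ∀ t t', ok t t' → t <+: t') (hcod : CodStatement)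
    (hb : Br ok nd lt Λ N DD EE xs g ξ lk)
    (hY : ∀ m, Y m ∈ h ↔ ∃ j, ∃ b : List Bool, nd (ξ j).θ ++ [b.length] <+: nd (ξ (j + 1)).θ ∧
      b ∉ (ξ (j + 1)).S ∧ m = Nat.pair (Pc (nd (ξ j).θ)) (cd b)) (m : ℕ) :
    ∃ k, m ≤ k ∧ ∀ n : ℕ, Y n ∈ h → n.unpair.1 < k → n.unpair.2 < k := by
  obtain ⟨-, -, hc3, -, -, hc6, hc7, hc8⟩ := hcod
  refine ⟨Pc (nd (ξ m).θ), (hb.ndlen hok m).trans (hc7 _), fun n hn hlt => ?_⟩
  obtain ⟨j, b, h1, -, rfl⟩ := (hY n).1 hn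
  rw [Nat.unpair_pair] at hlt ⊢
  simp only at hlt ⊢
  have h2 : j < m := by
    by_contra hcon
    exact absurd (hc8 _ _ (hb.ndmono hok (not_lt.1 hcon))) (not_le.2 hlt)
  calc cd b < 2 ^ (b.length + 1) := hc3 b
    _ < Pc (nd (ξ j).θ ++ [b.length]) := hc6 _ _
    _ ≤ Pc (nd (ξ (j + 1)).θ) := hc8 _ _ h1
    _ ≤ Pc (nd (ξ m).θ) := hc8 _ _ (hb.ndmono hok h2)

theorem dis_aux (hok : ∀ t t', ok t t' → t <+: t') (hcod : CodStatement)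
    (hwf : WellFounded lt) (hb : Br ok nd lt Λ N DD EE xs g ξ lk)
    (hY : ∀ m, Y m ∈ h ↔ ∃ j, ∃ b : List Bool, nd (ξ j).θ ++ [b.length] <+: nd (ξ (j + 1)).θ ∧
      b ∉ (ξ (j + 1)).S ∧ m = Nat.pair (Pc (nd (ξ j).θ)) (cd b))
    (hev : EvG N X h) (hev' : ∀ j, ev X (ξ j).e ∈ h) (hinN : ∀ j, In N (ξ j).e)
    (x : ℕ → RA (tC 𝒯 A)) (hxN : ∀ n, In N (x n)) (i : ℕ) (hx : ∀ n, i ≤ n → ∀ k, x k ≤ xs n k) :
    ∃ n, ∀ p, n ≤ p → ∀ i, ev X (x (Nat.pair p i)) ∈ h → Y (Nat.pair p i) ∉ h := by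
  obtain ⟨-, -, -, -, hcod_lt, -, -, hc8⟩ := hcod
  obtain ⟨J, hJ⟩ := hb.nunb' hwf i
  refine ⟨Pc (nd (ξ J).θ), fun p hp k h1 h2 => ?_⟩
  obtain ⟨j, b, h3, h4, h5⟩ := (hY _).1 h2
  by_cases hjJ : J ≤ j
  · have h6 : lk j = b.length := by
      have h7 := hb.ndstep hok j
      have h8 : nd (ξ j).θ ++ [lk j] = nd (ξ j).θ ++ [b.length] := by
        rcases List.prefix_or_prefix_of_prefix h7 h3 with h9 | h9
        · exact h9.eq_of_length (by simp)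
        · exact (h9.eq_of_length (by simp)).symm
      simpa using h8
    have h7 := (hb.stp j).2.2.2.1.2 b h6.symm h4
    rw [h5] at h1
    have h8 : (ξ (j + 1)).e ⊓ x (Nat.pair (Pc (nd (ξ j).θ)) (cd b)) = ⊥ := by
      refine le_bot_iff.1 (le_trans ?_ h7.le)
      exact inf_le_inf_left _ (hx _ (hJ j hjJ) _)
    have h9 := (hev.inf _ _ (hinN (j + 1)) (hxN _)).2 ⟨hev' (j + 1), h1⟩
    rw [h8] at h9
    exact hev.bt h9
  · have h6 := congrArg (fun n : ℕ => n.unpair.1) h5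
    simp only [Nat.unpair_pair] at h6
    have h7 : nd (ξ j).θ ++ [b.length] <+: nd (ξ J).θ :=
      h3.trans (hb.ndmono hok (by omega))
    have h8 : Pc (nd (ξ j).θ) < Pc (nd (ξ J).θ) :=
      (hcod_lt _ _).trans_le (hc8 _ _ h7)
    omega

/-- The verification of genericity and randomness. -/
theorem ver (hkap : KapStatement.{u}) (hcm : CmStatement) (hsys : Sys 𝒯 ok A Θ nd lt Λ)
    (hD : ∀ n, sSup (DD n) = ⊤) (hb : Br ok nd lt Λ N DD EE xs g ξ lk)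
    (hX : ∀ i, X i ∈ h ↔ ∃ j, (ξ j).σ[i]? = some true)
    (hver : ∀ e : ℕ → RA (tC 𝒯 A), (∀ n, In N (e n)) → (∀ n, e (n + 1) ≤ e n) →
      (∀ E : Set (Pt (tC 𝒯 A)), In N E → MeasurableSet E → nl E →
        ∃ n, ∃ ε : List Bool → tC 𝒯 A, In N ε ∧ Avd ε E ∧ e n ≤ cl ε) →
      (∀ n, ∃ k, ∃ ε : List Bool → tC 𝒯 A, In N ε ∧ Avd ε (rep (e n))ᶜ ∧ e k ≤ cl ε) →
      (∀ D : Set (tC 𝒯 A), In N D → sSup D = ⊤ → ∃ n, ∃ d ∈ D, In N d ∧ d ∈ h ∧ e n ≤ kap d) →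
      (∀ n k, e n ⊓ cy (res (vx X h) k) ≠ ⊥) →
        rn N X ∈ h ∧ ∀ n, ev X (e n) ∈ h)
    (hinN : ∀ j, In N (ξ j).e)
    (hEE : ∀ E : Set (Pt (tC 𝒯 A)), In N E → MeasurableSet E → nl E → ∃ i, EE i = E)
    (hDD : ∀ D : Set (tC 𝒯 A), In N D → sSup D = ⊤ → ∃ i, DD i = D)
    (hc2 : ∀ i j, (∃ ε : List Bool → tC 𝒯 A, Avd ε (EE i ∪ (rep (ξ j).e)ᶜ) ∧
      (ξ (j + 1)).e ≤ cl ε) → ∃ ε : List Bool → tC 𝒯 A, In N ε ∧
        Avd ε (EE i ∪ (rep (ξ j).e)ᶜ) ∧ (ξ (j + 1)).e ≤ cl ε)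
    (hc3 : ∀ i j, (∃ (b : A) (τ : TX 𝒯 A), (∃ d ∈ DD i, tE 𝒯 A b ⊓ tG τ ≤ d) ∧
       (ξ j).e ≤ kap (tE 𝒯 A b ⊓ tG τ)) → ∃ (b : A) (τ : TX 𝒯 A) (d : tC 𝒯 A), In N b ∧
         In N τ ∧ In N d ∧ d ∈ DD i ∧ tE 𝒯 A b ⊓ tG τ ≤ d ∧ (ξ j).e ≤ kap (tE 𝒯 A b ⊓ tG τ))
    (htree : ∀ j (b : A) (τ : TX 𝒯 A), In N b → In N τ → (ξ j).e ≤ kap (tE 𝒯 A b ⊓ tG τ) →
      tE 𝒯 A b ∈ h ∧ tG τ ∈ h) :
    rn N X ∈ h ∧ ∀ i, ∃ j, i ≤ j ∧ ev X (ξ j).e ∈ h := by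
  choose jj hjj using hb.exA hsys.wf
  have hlt : ∀ i, jj i < jj (i + 1) := by
    intro i
    by_contra hcon
    have h1 := hb.nmono (not_lt.1 hcon)
    have h2 := (hjj i).1
    have h3 := (hjj (i + 1)).1
    simp only at h1
    omega
  have hmono : StrictMono jj := strictMono_nat_of_lt_succ hlt
  have havd : ∀ (ε : List Bool → tC 𝒯 A) (E F : Set (Pt (tC 𝒯 A))), F ⊆ E → Avd ε E →
      Avd ε F := fun ε E F hEF h1 => h1.mono fun g hg x hx hx' => hg x hx (hEF hx')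
  have hkmono : ∀ a b : tC 𝒯 A, a ≤ b → (kap a : RA (tC 𝒯 A)) ≤ kap b := fun a b hab =>
    ((all_alg _ _ kap (hkap (tC 𝒯 A)).1).2.2.2.2.1 a b).2 hab
  have main := hver (fun i => (ξ (jj i)).e) (fun i => hinN _)
    (fun i => hb.eanti (hlt i).le) ?_ ?_ ?_ ?_
  · exact ⟨main.1, fun i => ⟨jj i, hmono.id_le i, main.2 i⟩⟩
  · intro E h1 h2 h3
    obtain ⟨i, rfl⟩ := hEE E h1 h2 h3
    obtain ⟨ε, h4, h5, h6⟩ := hc2 i (jj i) (hb.stpA (hjj i).1 (hjj i).2).2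
    exact ⟨i + 1, ε, h4, havd _ _ _ Set.subset_union_left h5, (hb.eanti (hlt i)).trans h6⟩
  · intro i
    obtain ⟨ε, h4, h5, h6⟩ := hc2 i (jj i) (hb.stpA (hjj i).1 (hjj i).2).2
    exact ⟨i + 1, ε, h4, havd _ _ _ Set.subset_union_right h5, (hb.eanti (hlt i)).trans h6⟩
  · intro D h1 h2
    obtain ⟨i, rfl⟩ := hDD D h1 h2
    obtain ⟨b, τ, d, h3, h4, h5, h6, h7, h8⟩ :=
      hc3 i (jj i + 1) (hb.stpA (hjj i).1 (hjj i).2).1
    obtain ⟨h9, h10⟩ := htree _ b τ h3 h4 h8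
    exact ⟨i + 1, d, h6, h5, h.mono h7 (h.mem_inf.2 ⟨h9, h10⟩),
      ((hb.eanti (hlt i)).trans h8).trans (hkmono _ _ h7)⟩
  · intro i k h1
    obtain ⟨j, h2, h3⟩ := hb.cy_le hkap hcm hsys.wf hX k (jj i)
    refine hb.ne hkap hsys hD j (le_bot_iff.1 (le_trans ?_ h1.le))
    exact inf_le_inf (hb.eanti h2) h3

end Br

end

end Pool.Agent.Lib.MP_a78e1f_lc.H72
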