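import Pool.Agent.Lib.MP_a78e1f_lc.H72.Branch

/-!
# ST, part 3: closure properties of `N`, the states
-/

universe u v w

open Cardinal Filter MeasureTheory

namespace Pool.Agent.Lib.MP_a78e1f_lc.H72

open Pool.Agent.Lib.MP_100a6c_lc
open Pool.Agent.Lib.MP_c5d73d_lc.F (pr)
open Pool.Agent.Lib.MP_e6fef2_lc
open Pool.Agent.Lib.MP_6d445e_gt
open Pool.Agent.Lib.MP_a78e1f_lc

/-! ## Closure properties of `N` -/

theorem club_all {ι : Type*} [Countable ι] {p : ι → Set El.{u} → Prop}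
    (h : ∀ i, ∀ᶠ N in club, p i N) : ∀ᶠ N in club, ∀ i, p i N := by
  rcases isEmpty_or_nonempty ι with hι | hι
  · exact Filter.Eventually.of_forall fun N i => isEmptyElim i
  · obtain ⟨e, he⟩ := exists_surjective_nat ι
    filter_upwards [all_club.{u}.2.2.1 (fun n => p (e n)) fun n => h (e n)] with N hN i
    obtain ⟨n, rfl⟩ := he i
    exact hN n

theorem club_choice {T T' : Type u} (p : T → T' → Prop) : ∀ᶠ N in club, ∀ t : T, In N t →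
    (∃ t', p t t') → ∃ t' : T', In N t' ∧ p t t' := by
  refine all_club.{u}.2.2.2.2.1 T _ fun t => ?_
  by_cases h : ∃ t', p t t'
  · obtain ⟨t', ht'⟩ := h
    exact (all_club.{u}.2.2.2.1 T' t').mono fun N hN _ => ⟨t', hN, ht'⟩
  · exact Filter.Eventually.of_forall fun N h' => absurd h' h

theorem club_pair (T T' : Type u) : ∀ᶠ N in club, ∀ (t : T) (t' : T'), In N t → In N t' →
    In N (t, t') := all_club.{u}.2.2.2.2.2.2.1 T T' (T × T') Prod.mk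

theorem club_fun {T T' : Type u} (f : T → T') : ∀ᶠ N in club, ∀ t : T, In N t → In N (f t) :=
  all_club.{u}.2.2.2.2.2.1 T T' f

theorem club_fun2 {T T' T'' : Type u} (f : T → T' → T'') : ∀ᶠ N in club, ∀ (t : T) (t' : T'),
    In N t → In N t' → In N (f t t') := all_club.{u}.2.2.2.2.2.2.1 T T' T'' f

theorem club_qs (Θ R : Type u) : ∀ᶠ N in club, ∀ (n : ℕ) (σ : List Bool)
    (S : Finset (List Bool)) (θ : Θ) (e : R), In N θ → In N e → In N (⟨n, θ, e, σ, S⟩ : Qs Θ R) :=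
  club_all fun n => club_all fun σ => club_all fun S =>
    club_fun2 (T := Θ) (T' := R) (T'' := Qs Θ R) fun θ e => ⟨n, θ, e, σ, S⟩

theorem club_par (C : Type u) [CompleteBooleanAlgebra C] : ∀ᶠ N in club, ∀ (x : ℕ → RA C)
    (D D' : Set C) (E : Set (Pt C)), In N x → In N D → In N D' → In N E →
      In N (⟨x, D, D', E⟩ : Par C) := by
  filter_upwards [club_pair (ℕ → RA C) (Set C), club_pair (Set C) (Set (Pt C)),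
    club_fun2 fun (p : (ℕ → RA C) × Set C) (q : Set C × Set (Pt C)) =>
      (⟨p.1, p.2, q.1, q.2⟩ : Par C)] with N n1 n2 n3 x D D' E h1 h2 h3 h4
  exact n3 (x, D) (D', E) (n1 _ _ h1 h2) (n2 _ _ h3 h4)

section

variable {𝒯 : Set (List ℕ) → Prop} {ok : List ℕ → List ℕ → Prop} {A : Type u}
  [CompleteBooleanAlgebra A] {Θ : Type u} {nd : Θ → List ℕ} {lt : Θ → Θ → Prop}
  {Λ : Set (tC 𝒯 A) → Θ → RA (tC 𝒯 A) → RA A}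

/-! ## Values -/

variable (Λ) in
/-- The value of a state. -/
noncomputable def Pos (DD : ℕ → Set (tC 𝒯 A)) (q : Qs Θ (RA (tC 𝒯 A))) : A :=
  prj kap (Λ (DD q.n) q.θ (q.e ⊓ cy q.σ))

theorem vl_pm {DD : ℕ → Set (tC 𝒯 A)} {EE : ℕ → Set (Pt (tC 𝒯 A))}
    {xs : ℕ → ℕ → RA (tC 𝒯 A)} {l : ℕ} {q q' : Qs Θ (RA (tC 𝒯 A))}
    (h : Stp 𝒯 ok nd lt (pm DD EE xs q.n) l q q') :
    Vl Λ (pm DD EE xs q.n) q.n q' = Pos Λ DD q' := by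
  unfold Vl Pos pm
  rcases h.2.2.2.2 with h | h
  · rw [if_pos h.1, h.1]
  · rw [if_neg (by omega), h.1]

/-- The closure properties of `N` which are used. -/
structure Ncl (ok : List ℕ → List ℕ → Prop) (nd : Θ → List ℕ) (lt : Θ → Θ → Prop)
    (Λ : Set (tC 𝒯 A) → Θ → RA (tC 𝒯 A) → RA A) (V : Par (tC 𝒯 A) × Qs Θ (RA (tC 𝒯 A)) →
      List Bool → A) (N : Set El.{u}) : Prop where
  cnt : N.Countable
  dn : ∀ (m : ℕ) (p : Par (tC 𝒯 A) × Qs Θ (RA (tC 𝒯 A))), In N p →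
    In N fun q' : Qs Θ (RA (tC 𝒯 A)) => ⨆ _ : ∃ l, m ≤ l ∧ Stp 𝒯 ok nd lt p.1 l p.2 q',
      Vl Λ p.1 p.2.n q' ⊓ ⨅ ρ ∈ q'.S, V p (ρ.take m)
  V : ∀ p, In N p → In N (V p)
  qs : ∀ (n : ℕ) (σ : List Bool) (S : Finset (List Bool)) (θ : Θ) (e : RA (tC 𝒯 A)), In N θ →
    In N e → In N (⟨n, θ, e, σ, S⟩ : Qs Θ (RA (tC 𝒯 A)))
  par : ∀ (x : ℕ → RA (tC 𝒯 A)) (D D' : Set (tC 𝒯 A)) (E : Set (Pt (tC 𝒯 A))), In N x →
    In N D → In N D' → In N E → In N (⟨x, D, D', E⟩ : Par (tC 𝒯 A))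
  pq : ∀ (t : Par (tC 𝒯 A)) (q : Qs Θ (RA (tC 𝒯 A))), In N t → In N q → In N (t, q)
  qe : ∀ q : Qs Θ (RA (tC 𝒯 A)), In N q → In N q.e
  bx : In N fun _ : ℕ => (⊥ : RA (tC 𝒯 A))
  un : In N (Set.univ : Set (tC 𝒯 A))
  em : In N (∅ : Set (Pt (tC 𝒯 A)))
  xx : ∀ x y : ℕ → RA (tC 𝒯 A), In N x → In N y → In N fun k => x k ⊔ y k
  xk : ∀ (k : ℕ) (x : ℕ → RA (tC 𝒯 A)), In N x → In N (x k)
  kp : ∀ c : tC 𝒯 A, In N c → In N (kap c : RA (tC 𝒯 A))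
  rt : ∀ (D : Set (tC 𝒯 A)) (c : tC 𝒯 A), In N D → In N c →
    In N fun θ : Θ => (prj kap (Λ D θ (kap c)) : A)
  c2 : ∀ (E : Set (Pt (tC 𝒯 A))) (e e' : RA (tC 𝒯 A)), In N E → In N e → In N e' →
    (∃ ε : List Bool → tC 𝒯 A, Avd ε (E ∪ (rep e)ᶜ) ∧ e' ≤ cl ε) →
      ∃ ε : List Bool → tC 𝒯 A, In N ε ∧ Avd ε (E ∪ (rep e)ᶜ) ∧ e' ≤ cl ε
  c3 : ∀ (D : Set (tC 𝒯 A)) (e : RA (tC 𝒯 A)), In N D → In N e →
    (∃ (b : A) (τ : TX 𝒯 A), (∃ d ∈ D, tE 𝒯 A b ⊓ tG τ ≤ d) ∧ e ≤ kap (tE 𝒯 A b ⊓ tG τ)) →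
      ∃ (b : A) (τ : TX 𝒯 A) (d : tC 𝒯 A), In N b ∧ In N τ ∧ In N d ∧ d ∈ D ∧
        tE 𝒯 A b ⊓ tG τ ≤ d ∧ e ≤ kap (tE 𝒯 A b ⊓ tG τ)
  ngQ : ∀ᶠ g in ae A, gen A N ∈ g → ∀ φ : Qs Θ (RA (tC 𝒯 A)) → A, In N φ → (⨆ t, φ t) ∈ g →
    ∃ t, In N t ∧ φ t ∈ g
  ngT : ∀ᶠ g in ae A, gen A N ∈ g → ∀ φ : Θ → A, In N φ → (⨆ t, φ t) ∈ g →
    ∃ t, In N t ∧ φ t ∈ g

theorem club_ncl (ok : List ℕ → List ℕ → Prop) (nd : Θ → List ℕ) (lt : Θ → Θ → Prop)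
    (Λ : Set (tC 𝒯 A) → Θ → RA (tC 𝒯 A) → RA A) (V : Par (tC 𝒯 A) × Qs Θ (RA (tC 𝒯 A)) →
      List Bool → A) : ∀ᶠ N in club, Ncl ok nd lt Λ V N := by
  have h2 := club_choice fun (t : Set (Pt (tC 𝒯 A)) × RA (tC 𝒯 A) × RA (tC 𝒯 A))
    (ε : List Bool → tC 𝒯 A) => Avd ε (t.1 ∪ (rep t.2.1)ᶜ) ∧ t.2.2 ≤ cl ε
  have h3 := club_choice fun (t : Set (tC 𝒯 A) × RA (tC 𝒯 A)) (s : A × TX 𝒯 A × tC 𝒯 A) =>
    s.2.2 ∈ t.1 ∧ tE 𝒯 A s.1 ⊓ tG s.2.1 ≤ s.2.2 ∧ t.2 ≤ kap (tE 𝒯 A s.1 ⊓ tG s.2.1)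
  filter_upwards [all_club.{u}.2.1, club_all fun m : ℕ => club_fun
    (fun (p : Par (tC 𝒯 A) × Qs Θ (RA (tC 𝒯 A))) (q' : Qs Θ (RA (tC 𝒯 A))) =>
      ⨆ _ : ∃ l, m ≤ l ∧ Stp 𝒯 ok nd lt p.1 l p.2 q',
      Vl Λ p.1 p.2.n q' ⊓ ⨅ ρ ∈ q'.S, V p (ρ.take m)), club_fun V, club_qs Θ (RA (tC 𝒯 A)),
    club_par (tC 𝒯 A), club_pair (Par (tC 𝒯 A)) (Qs Θ (RA (tC 𝒯 A))),
    club_fun fun q : Qs Θ (RA (tC 𝒯 A)) => q.e,
    all_club.{u}.2.2.2.1 (ℕ → RA (tC 𝒯 A)) fun _ => ⊥,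
    all_club.{u}.2.2.2.1 (Set (tC 𝒯 A)) Set.univ,
    all_club.{u}.2.2.2.1 (Set (Pt (tC 𝒯 A))) ∅,
    club_fun2 fun (x y : ℕ → RA (tC 𝒯 A)) (k : ℕ) => x k ⊔ y k,
    club_all fun k : ℕ => club_fun fun x : ℕ → RA (tC 𝒯 A) => x k,
    club_fun fun c : tC 𝒯 A => (kap c : RA (tC 𝒯 A)),
    club_fun2 fun (D : Set (tC 𝒯 A)) (c : tC 𝒯 A) (θ : Θ) => (prj kap (Λ D θ (kap c)) : A),
    h2, h3, club_pair (RA (tC 𝒯 A)) (RA (tC 𝒯 A)),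
    club_pair (Set (Pt (tC 𝒯 A))) (RA (tC 𝒯 A) × RA (tC 𝒯 A)),
    club_pair (Set (tC 𝒯 A)) (RA (tC 𝒯 A)), club_fun fun s : A × TX 𝒯 A × tC 𝒯 A => s.1,
    club_fun fun s : A × TX 𝒯 A × tC 𝒯 A => s.2.1,
    club_fun fun s : A × TX 𝒯 A × tC 𝒯 A => s.2.2,
    H21.ng A (Qs Θ (RA (tC 𝒯 A))), H21.ng A Θ]
    with N n1 n2 n3 n4 n5 n6 n7 n8 n9 n10 n11 n12 n13 n14 n15 n16 n17 n18 n19 n20 n21 n22 n23 n24
  refine ⟨n1, n2, n3, n4, n5, n6, n7, n8, n9, n10, n11, n12, n13, n14, ?_, ?_, n23, n24⟩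
  · intro E e e' hE he he' h
    exact n15 (E, e, e') (n18 _ _ hE (n17 _ _ he he')) h
  · rintro D e hD he ⟨b, τ, ⟨d, hd, h4⟩, h5⟩
    obtain ⟨s, h6, h7, h8, h9⟩ := n16 (D, e) (n19 _ _ hD he) ⟨(b, τ, d), hd, h4, h5⟩
    exact ⟨s.1, s.2.1, s.2.2, n20 _ h6, n21 _ h6, n22 _ h6, h7, h8, h9⟩

/-! ## The states in `N` -/

/-- The hypotheses on the enumerations. -/
structure Enu (N : Set El.{u}) (DD : ℕ → Set (tC 𝒯 A)) (EE : ℕ → Set (Pt (tC 𝒯 A)))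
    (xs : ℕ → ℕ → RA (tC 𝒯 A)) : Prop where
  DN : ∀ n, In N (DD n)
  Dt : ∀ n, sSup (DD n) = ⊤
  Da : ∀ D : Set (tC 𝒯 A), In N D → sSup D = ⊤ → ∃ i, DD i = D
  EN : ∀ n, In N (EE n)
  Em : ∀ n, MeasurableSet (EE n)
  En : ∀ n, nl (EE n)
  Ea : ∀ E : Set (Pt (tC 𝒯 A)), In N E → MeasurableSet E → nl E → ∃ i, EE i = E
  xN : ∀ n, In N (xs n)
  xsl : ∀ n, Sl (xs n)
  xa : ∀ x : ℕ → RA (tC 𝒯 A), In N x → Sl x → ∃ i, ∀ n, i ≤ n → ∀ k, x k ≤ xs n k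

theorem exists_enu {V : Par (tC 𝒯 A) × Qs Θ (RA (tC 𝒯 A)) → List Bool → A} {N : Set El.{u}}
    (hN : Ncl ok nd lt Λ V N) : ∃ (DD : ℕ → Set (tC 𝒯 A)) (EE : ℕ → Set (Pt (tC 𝒯 A)))
      (xs : ℕ → ℕ → RA (tC 𝒯 A)), Enu N DD EE xs := by
  have hcx := H4.countable_in' hN.cnt (ℕ → RA (tC 𝒯 A)) Sl
  have hcD := H4.countable_in' hN.cnt (Set (tC 𝒯 A)) (fun D => sSup D = ⊤)
  have hcE := H4.countable_in' hN.cnt (Set (Pt (tC 𝒯 A))) (fun E => MeasurableSet E ∧ nl E)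
  have hnx : Nonempty {x : ℕ → RA (tC 𝒯 A) // In N x ∧ Sl x} := ⟨⟨_, hN.bx, H4.sl_bot⟩⟩
  have hnD : Nonempty {D : Set (tC 𝒯 A) // In N D ∧ sSup D = ⊤} :=
    ⟨⟨Set.univ, hN.un, top_unique (le_sSup (Set.mem_univ _))⟩⟩
  have hnE : Nonempty {E : Set (Pt (tC 𝒯 A)) // In N E ∧ MeasurableSet E ∧ nl E} :=
    ⟨⟨∅, hN.em, MeasurableSet.empty, Filter.Eventually.of_forall fun g => by simp [sec]⟩⟩
  obtain ⟨xx, hxx⟩ := exists_surjective_nat {x : ℕ → RA (tC 𝒯 A) // In N x ∧ Sl x}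
  obtain ⟨DD, hDD⟩ := exists_surjective_nat {D : Set (tC 𝒯 A) // In N D ∧ sSup D = ⊤}
  obtain ⟨EE, hEE⟩ := exists_surjective_nat
    {E : Set (Pt (tC 𝒯 A)) // In N E ∧ MeasurableSet E ∧ nl E}
  let xs : ℕ → ℕ → RA (tC 𝒯 A) := fun n =>
    Nat.rec (xx 0).1 (fun m x k => x k ⊔ (xx (m + 1)).1 k) n
  have hsucc : ∀ n, xs (n + 1) = fun k => xs n k ⊔ (xx (n + 1)).1 k := fun n => rfl
  have hmono : ∀ i n, i ≤ n → ∀ k, (xx i).1 k ≤ xs n k := by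
    intro i n hin
    induction n, hin using Nat.le_induction with
    | base =>
      intro k
      cases i with
      | zero => exact le_rfl
      | succ i =>
        rw [hsucc]
        exact le_sup_right
    | succ n hn ih =>
      intro k
      rw [hsucc]
      exact (ih k).trans le_sup_left
  refine ⟨fun n => (DD n).1, fun n => (EE n).1, xs, fun n => (DD n).2.1, fun n => (DD n).2.2, ?_,
    fun n => (EE n).2.1, fun n => (EE n).2.2.1, fun n => (EE n).2.2.2, ?_, ?_, ?_, ?_⟩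
  · intro D h1 h2
    obtain ⟨i, hi⟩ := hDD ⟨D, h1, h2⟩
    exact ⟨i, congrArg Subtype.val hi⟩
  · intro E h1 h2 h3
    obtain ⟨i, hi⟩ := hEE ⟨E, h1, h2, h3⟩
    exact ⟨i, congrArg Subtype.val hi⟩
  · intro n
    induction n with
    | zero => exact (xx 0).2.1
    | succ n ih => exact hN.xx _ _ ih (xx (n + 1)).2.1
  · intro n
    induction n with
    | zero => exact (xx 0).2.2
    | succ n ih =>
      obtain ⟨r, hr⟩ := ih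
      obtain ⟨r', hr'⟩ := (xx (n + 1)).2.2
      exact ⟨_, (H82.sla (RA (tC 𝒯 A))).2.2.1 r r' ⊤ _ _ hr hr'⟩
  · intro x h1 h2
    obtain ⟨i, hi⟩ := hxx ⟨x, h1, h2⟩
    refine ⟨i, fun n hn k => ?_⟩
    have h3 := hmono i n hn k
    rw [hi] at h3
    exact h3

theorem Enu.gp {N : Set El.{u}} {DD : ℕ → Set (tC 𝒯 A)} {EE : ℕ → Set (Pt (tC 𝒯 A))}
    {xs : ℕ → ℕ → RA (tC 𝒯 A)} (h : Enu N DD EE xs) (n : ℕ) : Gp (pm DD EE xs n) :=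
  ⟨h.xsl n, h.Dt n, h.Dt (n + 1), h.Em n, h.En n⟩

/-- The states in `N`. -/
abbrev XN (𝒯 : Set (List ℕ) → Prop) (A : Type u) [CompleteBooleanAlgebra A] (Θ : Type u)
    (N : Set El.{u}) : Type u := {q : Qs Θ (RA (tC 𝒯 A)) // In N q}

variable (Λ) in
/-- The good value. -/
noncomputable def gdx {N : Set El.{u}} (DD : ℕ → Set (tC 𝒯 A)) (s : XN 𝒯 A Θ N) : A :=
  gen A N ⊓ Pos Λ DD s.1

variable (ok nd lt Λ) in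
/-- The value of a step. -/
noncomputable def edx {N : Set El.{u}} (DD : ℕ → Set (tC 𝒯 A)) (EE : ℕ → Set (Pt (tC 𝒯 A)))
    (xs : ℕ → ℕ → RA (tC 𝒯 A)) (V : Par (tC 𝒯 A) × Qs Θ (RA (tC 𝒯 A)) → List Bool → A)
    (m : ℕ) (s s' : XN 𝒯 A Θ N) : A :=
  ⨆ _ : ∃ l, m ≤ l ∧ Stp 𝒯 ok nd lt (pm DD EE xs s.1.n) l s.1 s'.1,
    gdx Λ DD s' ⊓ ⨅ ρ ∈ s'.1.S, V (pm DD EE xs s.1.n, s.1) (ρ.take m)

theorem phyp (hkap : KapStatement.{u}) (hsys : Sys 𝒯 ok A Θ nd lt Λ)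
    {V : Par (tC 𝒯 A) × Qs Θ (RA (tC 𝒯 A)) → List Bool → A}
    (hV : ∀ p, Gp p.1 → HasV ok nd lt Λ p.1 p.2 (V p)) {N : Set El.{u}}
    (hN : Ncl ok nd lt Λ V N) {DD : ℕ → Set (tC 𝒯 A)} {EE : ℕ → Set (Pt (tC 𝒯 A))}
    {xs : ℕ → ℕ → RA (tC 𝒯 A)} (hen : Enu N DD EE xs) :
    PHyp ok (fun s : XN 𝒯 A Θ N => nd s.1.θ) (gdx Λ DD) (edx ok nd lt Λ DD EE xs V) where
  inc s h := by
    by_contra hcon
    apply h
    unfold gdx Pos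
    rw [hsys.inc _ (hen.Dt _) _ _ hcon]
    have h2 : prj kap (⊥ : RA A) = ⊥ :=
      ((all_alg A (RA A) kap (hkap A).1).2.2.2.2.2.2.2.2.2.2.2.2.2.2.2.2.2.1 ⊥).2 rfl
    rw [h2, inf_bot_eq]
  le m s s' := iSup_le fun _ => inf_le_left
  anti m s s' := by
    refine iSup_le fun h => ?_
    obtain ⟨l, hl, hst⟩ := h
    refine le_iSup_of_le ⟨l, by omega, hst⟩ (inf_le_inf_left _ ?_)
    refine iInf_mono fun ρ => iInf_mono fun _ => ?_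
    exact (hV _ (hen.gp _)).anti _ _ (List.take_prefix_take_left (Nat.le_succ m))
  node m s s' h := by
    by_contra hcon
    apply h
    unfold edx
    refine iSup_eq_bot.2 fun h1 => ?_
    obtain ⟨l, hl, hst⟩ := h1
    exact absurd ⟨l, hl, hst.1⟩ hcon
  ex m s := by
    refine le_of_ae ?_
    filter_upwards [hN.ngQ, ae_iSup fun s' : XN 𝒯 A Θ N => edx ok nd lt Λ DD EE xs V m s s'] with
      g g1 g2 hs
    rw [g2]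
    obtain ⟨h1, h2⟩ := g.mem_inf.1 hs
    have hpN : In N (pm DD EE xs s.1.n, s.1) :=
      hN.pq _ _ (hN.par _ _ _ _ (hen.xN _) (hen.DN _) (hen.DN _) (hen.EN _)) s.2
    obtain ⟨q', h3, h4⟩ := g1 h1 _ (hN.dn m _ hpN) (g.mono ((hV _ (hen.gp _)).dn m) h2)
    refine ⟨⟨q', h3⟩, ?_⟩
    have h5 : ∃ l, m ≤ l ∧ Stp 𝒯 ok nd lt (pm DD EE xs s.1.n) l s.1 q' := by
      by_contra hcon
      rw [iSup_neg hcon] at h4
      exact g.not_bot h4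
    rw [iSup_pos h5] at h4
    obtain ⟨l, hl, hst⟩ := h5
    rw [vl_pm hst] at h4
    obtain ⟨h6, h7⟩ := g.mem_inf.1 h4
    refine g.mono (le_iSup_of_le ⟨l, hl, hst⟩ le_rfl) (g.mem_inf.2 ⟨g.mem_inf.2 ⟨h1, h6⟩, h7⟩)

end

end Pool.Agent.Lib.MP_a78e1f_lc.H72
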