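import Pool.Agent.Lib.MP_a78e1f_lc.T.Iface

/-!
# TRM, TRL, part 1: combinatorics of trees of paths
-/

universe u v w

open Cardinal Filter MeasureTheory

namespace Pool.Agent.Lib.MP_a78e1f_lc.H72

open Pool.Agent.Lib.MP_100a6c_lc
open Pool.Agent.Lib.MP_c5d73d_lc.F (pr)
open Pool.Agent.Lib.MP_e6fef2_lc
open Pool.Agent.Lib.MP_6d445e_gt
open Pool.Agent.Lib.MP_a78e1f_lc

/-- A tree of paths. -/
structure CT (ok : List ℕ → List ℕ → Prop) {X : Type u} (nd : X → List ℕ) (s0 : X)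
    (Q : List X → Prop) : Prop where
  root : Q [s0]
  last : ∀ π, Q π → ∃ ρ, π = ρ ++ [s0]
  step : ∀ s' s π, Q (s' :: s :: π) → Q (s :: π) ∧ ∃ l, ok (nd s ++ [l]) (nd s')
  uniq : ∀ s' s'' s π l, Q (s' :: s :: π) → Q (s'' :: s :: π) → nd s ++ [l] <+: nd s' →
    nd s ++ [l] <+: nd s'' → s' = s''
  inf : ∀ s π, Q (s :: π) → ∀ m, ∃ s' l, m ≤ l ∧ ok (nd s ++ [l]) (nd s') ∧ Q (s' :: s :: π)
  inc : ∀ s π, Q (s :: π) → Inc (nd s)

/-- The tree of the nodes. -/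
def tr {X : Type u} (nd : X → List ℕ) (Q : List X → Prop) : Set (List ℕ) :=
  {t | ∃ s ρ, Q (s :: ρ) ∧ t <+: nd s}

theorem next_of_suffix {X : Type u} {κ π : List X} (h : κ <:+ π) (h' : κ.length < π.length) :
    ∃ v, v :: κ <:+ π := by
  obtain ⟨w, rfl⟩ := h
  rcases List.eq_nil_or_concat w with rfl | ⟨w', v, rfl⟩
  · simp at h'
  · exact ⟨v, w', by simp⟩

theorem succ_eq' {t : List ℕ} {l l' : ℕ} (h : Cmp (t ++ [l]) (t ++ [l'])) : l = l' := by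
  rcases h with h | h
  · have := h.eq_of_length (by simp)
    simpa using this
  · have := h.eq_of_length (by simp)
    simpa using this.symm

theorem long_ext {σ : Set (List ℕ)} (hext : ∀ t ∈ σ, ∃ k, t ++ [k] ∈ σ) {t : List ℕ}
    (ht : t ∈ σ) (n : ℕ) : ∃ t' ∈ σ, t <+: t' ∧ n ≤ t'.length := by
  induction n with
  | zero => exact ⟨t, ht, List.prefix_rfl, Nat.zero_le _⟩
  | succ n ih =>
    obtain ⟨t', h1, h2, h3⟩ := ih
    obtain ⟨k, hk⟩ := hext t' h1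
    refine ⟨t' ++ [k], hk, h2.trans (List.prefix_append _ _), ?_⟩
    rw [List.length_append, List.length_singleton]
    omega

namespace CT

variable {ok : List ℕ → List ℕ → Prop} {X : Type u} {nd : X → List ℕ} {s0 : X}
  {Q : List X → Prop}

theorem sub (h : CT ok nd s0 Q) {κ : List X} (hκ : κ ≠ []) {π : List X} :
    Q π → κ <:+ π → Q κ := by
  induction π with
  | nil => intro _ h'; exact absurd (List.eq_nil_of_suffix_nil h') hκ
  | cons b π ih =>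
    intro hq h'
    rcases List.suffix_cons_iff.1 h' with h1 | h1
    · rw [h1]; exact hq
    · cases π with
      | nil => exact absurd (List.eq_nil_of_suffix_nil h1) hκ
      | cons s π => exact ih (h.step _ _ _ hq).1 h1

theorem root_eq (h : CT ok nd s0 Q) {s : X} (hs : Q [s]) : s = s0 := by
  obtain ⟨ρ, hρ⟩ := h.last _ hs
  rcases ρ with _ | ⟨b, ρ⟩
  · simpa using hρ
  · simp at hρ

theorem ndsub (hok : ∀ t t', ok t t' → t <+: t') (h : CT ok nd s0 Q) {s : X} {ρ ρ1 : List X} :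
    ∀ {s1 : X}, Q (s1 :: ρ1) → s :: ρ <:+ s1 :: ρ1 → nd s <+: nd s1 := by
  induction ρ1 with
  | nil =>
    intro s1 _ h'
    rcases List.suffix_cons_iff.1 h' with h1 | h1
    · rw [(List.cons.inj h1).1]
    · exact absurd (List.eq_nil_of_suffix_nil h1) (by simp)
  | cons b ρ1 ih =>
    intro s1 hq h'
    rcases List.suffix_cons_iff.1 h' with h1 | h1
    · rw [(List.cons.inj h1).1]
    · obtain ⟨h2, l, h3⟩ := h.step _ _ _ hq
      exact ((ih h2 h1).trans (List.prefix_append _ _)).trans (hok _ _ h3)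

theorem root_pre (hok : ∀ t t', ok t t' → t <+: t') (h : CT ok nd s0 Q) {s : X} {ρ : List X}
    (hs : Q (s :: ρ)) : nd s0 <+: nd s := by
  obtain ⟨ρ', hρ'⟩ := h.last _ hs
  exact h.ndsub hok hs (ρ := []) ⟨ρ', hρ'.symm⟩

theorem c0 (hok : ∀ t t', ok t t' → t <+: t') (h : CT ok nd s0 Q) {ρ : List X} :
    ∀ {s : X}, Q (s :: ρ) → ∀ {s1 : X} {ρ1 : List X}, Q (s1 :: ρ1) → Cmp (nd s) (nd s1) →
      ρ.length ≤ ρ1.length → s :: ρ <:+ s1 :: ρ1 := by
  induction ρ with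
  | nil =>
    intro s hs s1 ρ1 hs1 _ _
    rw [h.root_eq hs]
    obtain ⟨ρ', hρ'⟩ := h.last _ hs1
    exact ⟨ρ', hρ'.symm⟩
  | cons b κ ih =>
    intro s hs s1 ρ1 hs1 hc hl
    obtain ⟨hb, l, hl'⟩ := h.step _ _ _ hs
    have e1 := hok _ _ hl'
    rw [List.length_cons] at hl
    have hcb : Cmp (nd b) (nd s1) :=
      H70.cmp_of_prefix ((List.prefix_append _ _).trans e1) List.prefix_rfl hc
    have h1 := ih hb hs1 hcb (by omega)
    obtain ⟨v, hv⟩ := next_of_suffix h1 (by simp only [List.length_cons]; omega)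
    have hqv := h.sub (by simp) hs1 hv
    obtain ⟨-, l', hl''⟩ := h.step _ _ _ hqv
    have e2 := hok _ _ hl''
    have e3 : Cmp (nd b ++ [l]) (nd b ++ [l']) :=
      H70.cmp_of_prefix e1 (e2.trans (h.ndsub hok hs1 hv)) hc
    have e4 := succ_eq' e3
    subst e4
    rw [h.uniq s v b κ l hs hqv e1 e2]
    exact hv

theorem c1 (hok : ∀ t t', ok t t' → t <+: t') (h : CT ok nd s0 Q) {s s1 : X} {ρ ρ1 : List X}
    {k : ℕ} (hs : Q (s :: ρ)) (hs1 : Q (s1 :: ρ1)) (hp : nd s ++ [k] <+: nd s1) :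
    ∃ s', Q (s' :: s :: ρ) ∧ nd s ++ [k] <+: nd s' ∧ ok (nd s ++ [k]) (nd s') ∧
      s' :: s :: ρ <:+ s1 :: ρ1 := by
  have hlen := hp.length_le
  rw [List.length_append, List.length_singleton] at hlen
  have hc : Cmp (nd s) (nd s1) := Or.inl ((List.prefix_append _ _).trans hp)
  have h1 : ρ.length < ρ1.length := by
    by_contra hcon
    have h2 := h.ndsub hok hs (h.c0 hok hs1 hs (Or.symm hc) (not_lt.1 hcon))
    have := h2.length_le
    omega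
  obtain ⟨v, hv⟩ := next_of_suffix (h.c0 hok hs hs1 hc h1.le)
    (by simp only [List.length_cons]; omega)
  have hqv := h.sub (by simp) hs1 hv
  obtain ⟨-, l, hl⟩ := h.step _ _ _ hqv
  have e1 := hok _ _ hl
  have e2 : k = l := succ_eq' (H70.cmp_of_common hp (e1.trans (h.ndsub hok hs1 hv)))
  subst e2
  exact ⟨v, hqv, e1, hl, hv⟩

theorem child_mem (hok : ∀ t t', ok t t' → t <+: t') (h : CT ok nd s0 Q) {σ : Set (List ℕ)}
    (hpre : ∀ t t', t <+: t' → t' ∈ σ → t ∈ σ) (hext : ∀ t ∈ σ, ∃ k, t ++ [k] ∈ σ)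
    (hσ : σ ⊆ tr nd Q) {s : X} {ρ : List X} (hs : Q (s :: ρ)) {k : ℕ} (hk : nd s ++ [k] ∈ σ) :
    ∃ s', Q (s' :: s :: ρ) ∧ ok (nd s ++ [k]) (nd s') ∧ nd s' ∈ σ := by
  obtain ⟨s1, ρ1, hs1, hp1⟩ := hσ hk
  obtain ⟨s', h1, h2, h3, -⟩ := h.c1 hok hs hs1 hp1
  refine ⟨s', h1, h3, ?_⟩
  obtain ⟨t2, h4, h5, h6⟩ := long_ext hext hk (nd s').length
  obtain ⟨s3, ρ3, hs3, hp3⟩ := hσ h4
  obtain ⟨s4, h7, h8, -, h9⟩ := h.c1 hok hs hs3 (h5.trans hp3)
  rw [h.uniq s4 s' s ρ k h7 h1 h8 h2] at h9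
  have h10 := h.ndsub hok hs3 h9
  exact hpre _ _ (List.prefix_of_prefix_length_le h10 hp3 h6) h4

/-- The step of the generic branch. -/
theorem cmp_child (hok : ∀ t t', ok t t' → t <+: t') (h : CT ok nd s0 Q) {s s' : X} {ρ : List X}
    {k : ℕ} (hs : Q (s :: ρ)) (hs' : Q (s' :: s :: ρ)) (hk : nd s ++ [k] <+: nd s')
    {t : List ℕ} (ht : t ∈ tr nd Q) (hc : Cmp t (nd s ++ [k])) : Cmp t (nd s') := by
  rcases hc with hc | hc
  · exact Or.inl (hc.trans hk)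
  · obtain ⟨s2, ρ2, hs2, hp2⟩ := ht
    obtain ⟨s4, h7, h8, -, h9⟩ := h.c1 hok hs hs2 (hc.trans hp2)
    rw [h.uniq s4 s' s ρ k h7 hs' h8 hk] at h9
    exact H70.cmp_of_common hp2 (h.ndsub hok hs2 h9)

theorem cmp_root (hok : ∀ t t', ok t t' → t <+: t') (h : CT ok nd s0 Q) {t : List ℕ}
    (ht : t ∈ tr nd Q) : Cmp t (nd s0) := by
  obtain ⟨s, ρ, hs, hp⟩ := ht
  exact H70.cmp_of_common hp (h.root_pre hok hs)

/-- Nodes comparable with `nd s` are below nodes of descendants. -/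
theorem desc (hok : ∀ t t', ok t t' → t <+: t') (h : CT ok nd s0 Q) {s : X} {ρ : List X}
    (hs : Q (s :: ρ)) {t : List ℕ} (ht : t ∈ tr nd Q) (hc : Cmp t (nd s)) :
    ∃ s' ρ', Q (s' :: ρ') ∧ s :: ρ <:+ s' :: ρ' ∧ t <+: nd s' := by
  rcases hc with hc | hc
  · exact ⟨s, ρ, hs, List.suffix_rfl, hc⟩
  · obtain ⟨s1, ρ1, hs1, hp1⟩ := ht
    rcases le_total ρ.length ρ1.length with hl | hl
    · exact ⟨s1, ρ1, hs1, h.c0 hok hs hs1 (Or.inl (hc.trans hp1)) hl, hp1⟩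
    · have h1 := h.ndsub hok hs (h.c0 hok hs1 hs (Or.inr (hc.trans hp1)) hl)
      exact ⟨s, ρ, hs, List.suffix_rfl, hp1.trans h1⟩

end CT

end Pool.Agent.Lib.MP_a78e1f_lc.H72
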