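import Pool.Agent.Lib.MP_a78e1f_lc.T.Iface

/-!
# ST, part 1: the steps between the states are dense
-/

universe u v w

open Cardinal Filter MeasureTheory

namespace Pool.Agent.Lib.MP_a78e1f_lc.H72

open Pool.Agent.Lib.MP_100a6c_lc
open Pool.Agent.Lib.MP_c5d73d_lc.F (pr)
open Pool.Agent.Lib.MP_e6fef2_lc
open Pool.Agent.Lib.MP_6d445e_gt
open Pool.Agent.Lib.MP_a78e1f_lc

/-- A state: the number of the next dense set, the position, the condition, an initial segment of the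
random point, the last finite set of sequences. -/
structure Qs (Θ R : Type u) : Type u where
  n : ℕ
  θ : Θ
  e : R
  σ : List Bool
  S : Finset (List Bool)

/-- The parameters of a step: a slalom, the next two dense sets, a null set. -/
structure Par (C : Type u) [CompleteBooleanAlgebra C] : Type u where
  x : ℕ → RA C
  D : Set C
  D' : Set C
  E : Set (Pt C)

section

variable {R : Type u} [CompleteBooleanAlgebra R]

/-- The condition `e` decides the part of the slalom `x` given by `t` and `l`. -/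
def Dec (x : ℕ → R) (t : List ℕ) (l : ℕ) (e : R) (S : Finset (List Bool)) : Prop :=
  (∀ b ∈ S, b.length = l ∧ e ≤ x (Nat.pair (Pc t) (cd b))) ∧
  ∀ b : List Bool, b.length = l → b ∉ S → e ⊓ x (Nat.pair (Pc t) (cd b)) = ⊥

theorem card_le (hcod : CodStatement) {x : ℕ → R} {r : ℕ → ℕ} (hx : SlOn r ⊤ x)
    {t : List ℕ} {l : ℕ} {e : R} {S : Finset (List Bool)} (he : e ≠ ⊥) (h : Dec x t l e S) :
    S.card ≤ r (Pc t) := by
  classical
  obtain ⟨g, hg, hg'⟩ := exists_of_ae hx he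
  have h1 := hg' g.mem_top (Pc t)
  have h2 : ((S.image cd : Finset ℕ) : Set ℕ) ⊆ {i | x (Nat.pair (Pc t) i) ∈ g} := by
    intro i hi
    obtain ⟨b, hb, rfl⟩ := Finset.mem_image.1 (Finset.mem_coe.1 hi)
    exact g.mono (h.1 b hb).2 hg
  have h3 := (Set.encard_le_encard h2).trans h1
  rw [Set.encard_coe_eq_coe_finsetCard, Finset.card_image_of_injective _ hcod.2.1] at h3
  exact_mod_cast h3

end

/-- The lists of length `l`. -/
noncomputable def lists (l : ℕ) : Finset (List Bool) :=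
  (List.finite_length_eq Bool l).toFinset

theorem mem_lists {l : ℕ} {b : List Bool} : b ∈ lists l ↔ b.length = l := by
  simp [lists]

section

variable {R R' : Type u} [CompleteBooleanAlgebra R] [CompleteBooleanAlgebra R']

/-- Decisions. -/
theorem dec_ind {ι : Type} [DecidableEq ι] (π : R' → R) (hπ : ∀ a b, π (a ⊔ b) = π a ⊔ π b)
    (y : ι → R') (X : R) (F : Finset ι) : ∀ c : R',
    (∀ (S : Finset ι) (c' : R'), S ⊆ F → c' ≤ c → (∀ i ∈ S, c' ≤ y i) →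
      (∀ i ∈ F, i ∉ S → c' ⊓ y i = ⊥) → π c' ≤ X) → π c ≤ X := by
  induction F using Finset.induction_on with
  | empty =>
    intro c h
    exact h ∅ c (Finset.Subset.refl _) le_rfl (by simp) (by simp)
  | insert i F hi ih =>
    intro c h
    have h1 : c = (c ⊓ y i) ⊔ (c ⊓ (y i)ᶜ) := by
      rw [← inf_sup_left, sup_compl_eq_top, inf_top_eq]
    rw [h1, hπ]
    refine sup_le (ih _ ?_) (ih _ ?_)
    · intro S c' hS hc' h2 h3
      refine h (insert i S) c' (Finset.insert_subset_insert i hS) (hc'.trans inf_le_left) ?_ ?_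
      · intro j hj
        rcases Finset.mem_insert.1 hj with rfl | hj
        · exact hc'.trans inf_le_right
        · exact h2 j hj
      · intro j hj hj'
        rcases Finset.mem_insert.1 hj with rfl | hj
        · exact absurd (Finset.mem_insert_self _ _) hj'
        · exact h3 j hj fun h => hj' (Finset.mem_insert_of_mem h)
    · intro S c' hS hc' h2 h3
      refine h S c' (hS.trans (Finset.subset_insert i F)) (hc'.trans inf_le_left) h2 ?_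
      intro j hj hj'
      rcases Finset.mem_insert.1 hj with rfl | hj
      · have h4 : c' ≤ (y j)ᶜ := hc'.trans inf_le_right
        rw [le_compl_iff_disjoint_right, disjoint_iff] at h4
        exact h4
      · exact h3 j hj hj'

/-- One step: decisions and extension of `σ`. -/
theorem dens_aux0 (π : R' → R) (hsup : ∀ a b, π (a ⊔ b) = π a ⊔ π b) (hbot : π ⊥ = ⊥)
    (cyR : List Bool → R) (cyC : List Bool → R') (hcy : ∀ c σ, π (c ⊓ cyC σ) = π c ⊓ cyR σ)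
    (h5 : ∀ σ τ, ¬ Cpb σ τ → cyC σ ⊓ cyC τ = ⊥) (h6 : ∀ σ τ, σ <+: τ → cyC τ ≤ cyC σ)
    (h7 : ∀ (r : R) (n : ℕ), r = ⨆ σ : List Bool, ⨆ _ : σ.length = n, r ⊓ cyR σ)
    (x : ℕ → R') (tt : List ℕ) (l : ℕ) (e : R') (σ : List Bool) (n : ℕ) (X : R)
    (h : ∀ (e' : R') (σ' : List Bool) (S : Finset (List Bool)), e' ≤ e → σ <+: σ' →
      n ≤ σ'.length → Dec x tt l e' S → π (e' ⊓ cyC σ') ≤ X) : π (e ⊓ cyC σ) ≤ X := by
  classical
  rw [h7 (π (e ⊓ cyC σ)) (max σ.length n)]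
  refine iSup_le fun σ' => iSup_le fun hσ' => ?_
  rw [← hcy]
  by_cases hc : Cpb σ σ'
  · have hp : σ <+: σ' := by
      rcases hc with hc | hc
      · exact hc
      · have h1 := hc.length_le
        have h2 : σ'.length = σ.length := by omega
        rw [hc.eq_of_length h2]
    rw [inf_assoc, inf_eq_right.2 (h6 σ σ' hp)]
    refine dec_ind (fun c => π (c ⊓ cyC σ')) (fun a b => ?_)
      (fun b => x (Nat.pair (Pc tt) (cd b))) X (lists l) e ?_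
    · rw [inf_sup_right, hsup]
    · intro S e' hS he' h2 h3
      exact h e' σ' S he' hp (by omega) ⟨fun b hb => ⟨mem_lists.1 (hS hb), h2 b hb⟩,
        fun b hb hb' => h3 b (mem_lists.2 hb) hb'⟩
  · rw [inf_assoc, h5 σ σ' hc, inf_bot_eq, hbot]
    exact bot_le

theorem addm_bot {f : R → R'} {π : R' → R} (h : AddM f π) : π ⊥ = ⊥ := by
  have := h.lin ⊥ ⊥
  rw [bot_inf_eq, inf_bot_eq] at this
  exact this

theorem inf_shuffle (a b c d : R) : a ⊓ b ⊓ c ⊓ d = a ⊓ c ⊓ d ⊓ b := by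
  rw [inf_assoc, inf_assoc, inf_comm b, ← inf_assoc, ← inf_assoc]

theorem le_bot_of {a b c : R} (h : a ≤ b) (h' : b ⊓ c = ⊥) : a ⊓ c = ⊥ :=
  le_bot_iff.1 ((inf_le_inf_right _ h).trans h'.le)

end

section

variable {𝒯 : Set (List ℕ) → Prop} {ok : List ℕ → List ℕ → Prop} {A : Type u}
  [CompleteBooleanAlgebra A] {Θ : Type u} {nd : Θ → List ℕ} {lt : Θ → Θ → Prop}
  {Λ : Set (tC 𝒯 A) → Θ → RA (tC 𝒯 A) → RA A}

variable (𝒯 ok nd lt) in
/-- A step. -/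
def Stp (t : Par (tC 𝒯 A)) (l : ℕ) (q q' : Qs Θ (RA (tC 𝒯 A))) : Prop :=
  ok (nd q.θ ++ [l]) (nd q'.θ) ∧ q'.e ≤ q.e ∧ q.σ <+: q'.σ ∧ Dec t.x (nd q.θ) l q'.e q'.S ∧
  ((q'.n = q.n ∧ lt q'.θ q.θ) ∨
   (q'.n = q.n + 1 ∧ q.n ≤ q'.σ.length ∧
     (∃ (b : A) (τ : TX 𝒯 A), (∃ d ∈ t.D, tE 𝒯 A b ⊓ tG τ ≤ d) ∧
       q'.e ≤ kap (tE 𝒯 A b ⊓ tG τ)) ∧
     ∃ ε : List Bool → tC 𝒯 A, Avd ε (t.E ∪ (rep q.e)ᶜ) ∧ q'.e ≤ cl ε))

variable (Λ) in
/-- The value of a next state. -/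
noncomputable def Vl (t : Par (tC 𝒯 A)) (n : ℕ) (q' : Qs Θ (RA (tC 𝒯 A))) : A :=
  prj kap (Λ (if q'.n = n then t.D else t.D') q'.θ (q'.e ⊓ cy q'.σ))

/-- Good parameters. -/
structure Gp (t : Par (tC 𝒯 A)) : Prop where
  sl : Sl t.x
  D : sSup t.D = ⊤
  D' : sSup t.D' = ⊤
  ms : MeasurableSet t.E
  nl : nl t.E

theorem cy_nil (hrapi : RapiStatement.{u}) : (cy [] : RA A) = ⊤ := by
  have h1 : (cyl [] : Set (Pt A)) = Set.univ := by
    ext p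
    simp [cyl, res]
  unfold cy
  rw [h1]
  exact (hrapi A).2.2.2.2.1

theorem dens_aux (hce : IsCE (tE 𝒯 A)) (hkap : KapStatement.{u}) (hrfm : RfmStatement.{u})
    {π : RA (tC 𝒯 A) → RA A} (hπ : AddM (rmap (tE 𝒯 A)) π) (x : ℕ → RA (tC 𝒯 A))
    (tt : List ℕ) (l : ℕ) (e : RA (tC 𝒯 A)) (σ : List Bool) (n : ℕ) (X : RA A)
    (h : ∀ (e' : RA (tC 𝒯 A)) (σ' : List Bool) (S : Finset (List Bool)), e' ≤ e → σ <+: σ' →
      n ≤ σ'.length → Dec x tt l e' S → π (e' ⊓ cy σ') ≤ X) : π (e ⊓ cy σ) ≤ X := by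
  obtain ⟨-, -, -, -, -, -, hk7⟩ := hkap A
  obtain ⟨-, -, -, -, hk5', hk6', -⟩ := hkap (tC 𝒯 A)
  refine dens_aux0 π hπ.sup (addm_bot hπ) cy cy ?_ hk5' hk6' hk7 x tt l e σ n X h
  intro c σ'
  have h1 := hπ.lin c (cy σ')
  rw [(hrfm A (tC 𝒯 A) (tE 𝒯 A) hce).2.2.2.2.2.1 σ'] at h1
  exact h1

theorem dens_step (hce : IsCE (tE 𝒯 A)) (hrapi : RapiStatement.{u}) (hrep : RepStatement.{u})
    (hkap : KapStatement.{u}) (hrfm : RfmStatement.{u}) (hsys : Sys 𝒯 ok A Θ nd lt Λ)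
    (t : Par (tC 𝒯 A)) (ht : Gp t) (q : Qs Θ (RA (tC 𝒯 A))) (m : ℕ) (X : A)
    (hX : ∀ l q', m ≤ l → Stp 𝒯 ok nd lt t l q q' → Vl Λ t q.n q' ≠ ⊥ → Vl Λ t q.n q' ≤ X) :
    prj kap (Λ t.D q.θ (q.e ⊓ cy q.σ)) ≤ X := by
  obtain ⟨hkc, -⟩ := hkap A
  have hgal : ∀ (r : RA A) (a : A), prj kap r ≤ a ↔ r ≤ kap a :=
    (all_alg A (RA A) kap hkc).2.2.2.2.2.2.2.2.2.2.1
  have hX' : ∀ l q', m ≤ l → Stp 𝒯 ok nd lt t l q q' → Vl Λ t q.n q' ≤ X := by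
    intro l q' h1 h2
    by_cases h3 : Vl Λ t q.n q' = ⊥
    · rw [h3]
      exact bot_le
    · exact hX l q' h1 h2 h3
  rw [hgal]
  have hms : MeasurableSet (t.E ∪ (rep q.e)ᶜ) :=
    ht.ms.union ((hrep (tC 𝒯 A)).1 q.e).1.compl
  have hnl : q.e ⊓ cy q.σ ⊓ mkR (t.E ∪ (rep q.e)ᶜ) = ⊥ := by
    have h1 : q.e ⊓ mkR (t.E ∪ (rep q.e)ᶜ) = ⊥ := by
      have h2 := (hrapi (tC 𝒯 A)).2.1 (rep q.e) (t.E ∪ (rep q.e)ᶜ)
        ((hrep (tC 𝒯 A)).1 q.e).1 hms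
      rw [((hrep (tC 𝒯 A)).1 q.e).2] at h2
      rw [← h2]
      refine ((hrapi (tC 𝒯 A)).2.2.2.2.2.2.1 _
        (((hrep (tC 𝒯 A)).1 q.e).1.inter hms)).2 (nl_mono ?_ ht.nl)
      rintro p ⟨hp1, hp2 | hp2⟩
      · exact hp2
      · exact absurd hp1 hp2
    exact le_bot_of inf_le_left h1
  refine (hsys.nxt t.D t.D' ht.D ht.D' q.θ (q.e ⊓ cy q.σ) _ hms hnl m).trans (sup_le ?_ ?_)
  · refine iSup_le fun θ' => iSup_le fun hθ' => ?_
    obtain ⟨hlt, l, hl, hok⟩ := hθ'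
    refine dens_aux hce hkap hrfm (hsys.add t.D ht.D θ') t.x (nd q.θ) l q.e q.σ 0 (kap X) ?_
    intro e' σ' S he' hσ' _ hdec
    rw [← hgal]
    have h1 := hX' l ⟨q.n, θ', e', σ', S⟩ hl ⟨hok, he', hσ', hdec, Or.inl ⟨rfl, hlt⟩⟩
    simpa only [Vl, if_true] using h1
  · refine iSup_le fun θ' => iSup_le fun hθ' => iSup_le fun b => iSup_le fun τ =>
      iSup_le fun hd => iSup_le fun ε => iSup_le fun hε => ?_
    obtain ⟨l, hl, hok⟩ := hθ'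
    have h0 : q.e ⊓ cy q.σ ⊓ kap (tE 𝒯 A b ⊓ tG τ) ⊓ cl ε =
        q.e ⊓ kap (tE 𝒯 A b ⊓ tG τ) ⊓ cl ε ⊓ cy q.σ := inf_shuffle _ _ _ _
    rw [h0]
    refine dens_aux hce hkap hrfm (hsys.add t.D' ht.D' θ') t.x (nd q.θ) l _ q.σ q.n (kap X) ?_
    intro e' σ' S he' hσ' hn hdec
    rw [← hgal]
    have h1 := hX' l ⟨q.n + 1, θ', e', σ', S⟩ hl ⟨hok, he'.trans (inf_le_left.trans inf_le_left),
      hσ', hdec, Or.inr ⟨rfl, hn, ⟨b, τ, hd, he'.trans (inf_le_left.trans inf_le_right)⟩,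
        ε, hε, he'.trans inf_le_right⟩⟩
    have h2 : ¬ (q.n + 1 = q.n) := by omega
    simpa only [Vl, if_neg h2] using h1

variable (ok nd lt Λ) in
/-- `v` is a name of a tree of finite width which contains the limits of the finite sets. -/
structure HasV (t : Par (tC 𝒯 A)) (q : Qs Θ (RA (tC 𝒯 A))) (v : List Bool → A) : Prop where
  bd : ∃ R : ℕ, ∀ᶠ g in ae A, ∀ m, {ρ : List Bool | ρ.length = m ∧ v ρ ∈ g}.encard ≤ R
  anti : ∀ ρ ρ', ρ <+: ρ' → v ρ' ≤ v ρ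
  dn : ∀ m, prj kap (Λ t.D q.θ (q.e ⊓ cy q.σ)) ≤ ⨆ q' : Qs Θ (RA (tC 𝒯 A)),
    ⨆ _ : ∃ l, m ≤ l ∧ Stp 𝒯 ok nd lt t l q q', Vl Λ t q.n q' ⊓ ⨅ ρ ∈ q'.S, v (ρ.take m)

theorem exists_v (hce : IsCE (tE 𝒯 A)) (hrapi : RapiStatement.{u}) (hrep : RepStatement.{u})
    (hkap : KapStatement.{u}) (hrfm : RfmStatement.{u}) (hcod : CodStatement)
    (hprom : PromStatement.{u, u}) (hsys : Sys 𝒯 ok A Θ nd lt Λ)
    (t : Par (tC 𝒯 A)) (ht : Gp t) (q : Qs Θ (RA (tC 𝒯 A))) : ∃ v, HasV ok nd lt Λ t q v := by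
  obtain ⟨r, hr⟩ := ht.sl
  have hbot : ∀ q' : Qs Θ (RA (tC 𝒯 A)), Vl Λ t q.n q' ≠ ⊥ → q'.e ≠ ⊥ := by
    intro q' h h'
    apply h
    unfold Vl
    have h0 : q'.e ⊓ cy q'.σ = ⊥ := by
      rw [h']
      exact bot_inf_eq _
    rw [h0]
    have h1 : sSup (if q'.n = q.n then t.D else t.D') = ⊤ := by
      split_ifs
      · exact ht.D
      · exact ht.D'
    rw [addm_bot (hsys.add _ h1 q'.θ)]
    exact ((all_alg A (RA A) kap (hkap A).1).2.2.2.2.2.2.2.2.2.2.2.2.2.2.2.2.2.1 ⊥).2 rfl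
  obtain ⟨v, h1, h2, h3⟩ := hprom A {p : ℕ × Qs Θ (RA (tC 𝒯 A)) //
      Stp 𝒯 ok nd lt t p.1 q p.2 ∧ Vl Λ t q.n p.2 ≠ ⊥}
    (fun p => p.1.2.S) (fun p => p.1.1) (r (Pc (nd q.θ))) (fun p => Vl Λ t q.n p.1.2)
    (fun p ρ hρ => (p.2.1.2.2.2.1.1 ρ hρ).1)
    (fun p => card_le hcod hr (hbot _ p.2.2) p.2.1.2.2.2.1)
  refine ⟨v, ⟨_, h1⟩, h2, fun m => ?_⟩
  refine (h3 _ (fun m' => ?_) m).trans ?_
  · refine dens_step hce hrapi hrep hkap hrfm hsys t ht q m' _ fun l q' hl hst hne => ?_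
    exact le_iSup_of_le ⟨(l, q'), hst, hne⟩ (le_iSup_of_le hl le_rfl)
  · refine iSup_le fun p => iSup_le fun hp => ?_
    exact le_iSup_of_le p.1.2 (le_iSup_of_le ⟨p.1.1, hp, p.2.1⟩ le_rfl)

end

end Pool.Agent.Lib.MP_a78e1f_lc.H72
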