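import Pool.Agent.Lib.MP_a78e1f_lc.K.Iface

/-!
# TNES, part 1: the approximations of an embedding
-/

universe u v w

open Cardinal Filter MeasureTheory

open scoped symmDiff

namespace Pool.Agent.Lib.MP_a78e1f_lc.H72

open Pool.Agent.Lib.MP_100a6c_lc
open Pool.Agent.Lib.MP_e6fef2_lc
open Pool.Agent.Lib.MP_6d445e_gt (Idw Ult ae ae_all ae_iSup ae_iInf le_of_ae)
open Pool.Agent.Lib.MP_a78e1f_lc

section

variable {B : Type u} [CompleteBooleanAlgebra B]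

theorem mem_bihimp (g : Ult B) (a b : B) : (a ⇔ b) ∈ g ↔ (a ∈ g ↔ b ∈ g) := by
  unfold bihimp
  rw [g.mem_inf, g.mem_himp, g.mem_himp]
  tauto

/-- The facts on initial segments which are used. -/
structure Pf (B : Type u) [CompleteBooleanAlgebra B] : Prop where
  pre : ∀ (X : ℕ → B) (σ : List Bool) (g : Ult B), pre X σ ∈ g ↔ res (vx X g) σ.length = σ
  len : ∀ (x : Cs) (n : ℕ), (res x n).length = n
  eq : ∀ (x y : Cs) (n : ℕ), res x n = res y n ↔ ∀ i < n, x i = y i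
  ext : ∀ (x : Cs) (σ : List Bool) (n : ℕ), σ <+: res x n → res x σ.length = σ
  mono : ∀ (x : Cs) (m n : ℕ), m ≤ n → res x m <+: res x n

theorem pf (hmeas : MeasStatement.{u}) (hcm : CmStatement) : Pf B :=
  ⟨(hmeas B).2.2.2.2.2.2.2.1, hcm.2.2.2.2.1, hcm.2.2.2.2.2.1, hcm.2.2.2.2.2.2.2,
    hcm.2.2.2.2.2.2.1⟩

variable (hp : Pf B)

include hp

theorem pre_mono (X : ℕ → B) {τ τ' : List Bool} (h : τ <+: τ') : pre X τ' ≤ pre X τ := by
  refine le_of_ae (Filter.Eventually.of_forall fun g hg => ?_)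
  rw [hp.pre] at hg ⊢
  rw [← hg] at h
  exact hp.ext _ _ _ h

theorem pre_agn (X Y : ℕ → B) (σ : List Bool) : pre X σ ⊓ pre Y σ ≤ agn σ.length X Y := by
  refine le_iInf fun k => le_iInf fun hk =>
    le_of_ae (Filter.Eventually.of_forall fun g hg => ?_)
  obtain ⟨h1, h2⟩ := g.mem_inf.1 hg
  rw [hp.pre] at h1 h2
  rw [mem_bihimp]
  have h3 := (hp.eq _ _ _).1 (h1.trans h2.symm) k hk
  simpa [vx] using h3

theorem agn_pre (X Y : ℕ → B) (σ : List Bool) : agn σ.length X Y ⊓ pre X σ ≤ pre Y σ := by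
  refine le_of_ae (Filter.Eventually.of_forall fun g hg => ?_)
  obtain ⟨h1, h2⟩ := g.mem_inf.1 hg
  rw [hp.pre] at h2 ⊢
  rw [← h2]
  rw [hp.len]
  refine (hp.eq _ _ _).2 fun i hi => ?_
  have h3 : (X i ⇔ Y i) ∈ g := g.mono ((iInf_le _ i).trans (iInf_le _ hi)) h1
  rw [mem_bihimp] at h3
  simp only [vx, decide_eq_decide]
  exact h3.symm

theorem cpb_of_pre (X : ℕ → B) (σ τ : List Bool) (g : Ult B) (h1 : pre X σ ∈ g)
    (h2 : pre X τ ∈ g) : Cpb σ τ := by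
  rw [hp.pre] at h1 h2
  rw [← h1, ← h2]
  rcases le_total σ.length τ.length with h | h
  · exact Or.inl (hp.mono _ _ _ h)
  · exact Or.inr (hp.mono _ _ _ h)

omit hp in
theorem vx_ground {X : ℕ → B} {r : ℕ → Bool} (h : ∀ n, X n = if r n then ⊤ else ⊥) (g : Ult B) :
    vx X g = r := by
  funext n
  unfold vx
  rw [h n]
  by_cases hr : r n = true
  · simp [hr, g.mem_top]
  · have : r n = false := by simpa using hr
    simp [this, g.not_bot]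

section

variable {T : Type u} (Γ : B) (x F : T → ℕ → B)

/-- The approximations of the embedding. -/
def F0 (σ τ : List Bool) : B := Γ ⊓ ⨅ t, pre (x t) σ ⇨ pre (F t) τ

/-- The approximations of the inverse of the embedding. -/
def G0 (τ σ : List Bool) : B := Γ ⊓ (⨆ t, pre (F t) τ) ⊓ ⨅ t, pre (F t) τ ⇨ pre (x t) σ

variable {Γ x F}

omit hp in
theorem F0_mem {g : Ult B} {σ τ : List Bool} (h : F0 Γ x F σ τ ∈ g) (t : T)
    (ht : pre (x t) σ ∈ g) : pre (F t) τ ∈ g :=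
  g.mem_himp.1 (g.mono (iInf_le _ t) (g.mem_inf.1 h).2) ht

omit hp in
theorem G0_mem {g : Ult B} {σ τ : List Bool} (h : G0 Γ x F τ σ ∈ g) (t : T)
    (ht : pre (F t) τ ∈ g) : pre (x t) σ ∈ g :=
  g.mem_himp.1 (g.mono (iInf_le _ t) (g.mem_inf.1 h).2) ht

theorem mem_aux {X Y : T → ℕ → B} {g : Ult B} {m n : ℕ} (t : T)
    (h : (⨅ t', agn m (X t) (X t') ⇨ agn n (Y t) (Y t')) ∈ g) :
    (⨅ t', pre (X t') (res (vx (X t) g) m) ⇨ pre (Y t') (res (vx (Y t) g) n)) ∈ g := by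
  have h1 : pre (X t) (res (vx (X t) g) m) ∈ g := by rw [hp.pre, hp.len]
  have h2 : pre (Y t) (res (vx (Y t) g) n) ∈ g := by rw [hp.pre, hp.len]
  refine g.mono ?_ (g.mem_inf.2 ⟨g.mem_inf.2 ⟨h, h1⟩, h2⟩)
  refine le_iInf fun t' => ?_
  rw [le_himp_iff]
  have h3 := pre_agn hp (X t) (X t') (res (vx (X t) g) m)
  have h4 := agn_pre hp (Y t) (Y t') (res (vx (Y t) g) n)
  rw [hp.len] at h3 h4
  refine le_trans (le_inf ?_ (inf_le_left.trans inf_le_right)) h4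
  have h5 : (⨅ t', agn m (X t) (X t') ⇨ agn n (Y t) (Y t')) ≤
      agn m (X t) (X t') ⇨ agn n (Y t) (Y t') := iInf_le _ t'
  rw [le_himp_iff] at h5
  refine le_trans (le_inf (inf_le_left.trans (inf_le_left.trans inf_le_left)) ?_) h5
  exact le_trans (le_inf (inf_le_left.trans (inf_le_left.trans inf_le_right)) inf_le_right) h3

theorem lim_F {z : W.{u} → ℕ → B} (hT : TEmb Γ x z F) (t : T) : ∀ᶠ h in ae B, Γ ∈ h →
    Lim (fun σ τ => F0 Γ x F σ τ ∈ h) (vx (x t) h) (vx (F t) h) := by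
  have h1 : ∀ᶠ h in ae B, ∀ n : ℕ,
      (⨆ m : ℕ, ⨅ t', agn m (x t) (x t') ⇨ agn n (F t) (F t')) ∈ h ↔
        ∃ m : ℕ, (⨅ t', agn m (x t) (x t') ⇨ agn n (F t) (F t')) ∈ h :=
    ae_all fun n => ae_iSup _
  filter_upwards [h1] with h h1 hΓ n
  obtain ⟨m, hm⟩ := (h1 n).1 (h.mono (hT.cont t n) hΓ)
  exact ⟨m, h.mem_inf.2 ⟨hΓ, mem_aux hp t hm⟩⟩

theorem lim_G {z : W.{u} → ℕ → B} (hT : TEmb Γ x z F) (t : T) : ∀ᶠ h in ae B, Γ ∈ h →
    Lim (fun τ σ => G0 Γ x F τ σ ∈ h) (vx (F t) h) (vx (x t) h) := by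
  have h1 : ∀ᶠ h in ae B, ∀ n : ℕ,
      (⨆ m : ℕ, ⨅ t', agn m (F t) (F t') ⇨ agn n (x t) (x t')) ∈ h ↔
        ∃ m : ℕ, (⨅ t', agn m (F t) (F t') ⇨ agn n (x t) (x t')) ∈ h :=
    ae_all fun n => ae_iSup _
  filter_upwards [h1] with h h1 hΓ n
  obtain ⟨m, hm⟩ := (h1 n).1 (h.mono (hT.inv t n) hΓ)
  refine ⟨m, h.mem_inf.2 ⟨h.mem_inf.2 ⟨hΓ, h.mono (le_iSup _ t) ?_⟩, mem_aux hp t hm⟩⟩
  rw [hp.pre, hp.len]

theorem relp {z : W.{u} → ℕ → B} (hT : TEmb Γ x z F)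
    (hgr : ∀ r : ℕ → Bool, ∃ t, ∀ n, x t n = if r n then ⊤ else ⊥) : ∀ᶠ h in ae B, Γ ∈ h →
      RelP (fun σ τ => F0 Γ x F σ τ ∈ h) fun τ σ => G0 Γ x F τ σ ∈ h := by
  choose gr hgr using hgr
  have h1 : ∀ᶠ h in ae B, ∀ σ : List Bool, Γ ∈ h →
      Lim (fun σ τ => F0 Γ x F σ τ ∈ h) (vx (x (gr (xz σ))) h) (vx (F (gr (xz σ))) h) :=
    ae_all fun σ => lim_F hp hT _
  have h2 : ∀ᶠ h in ae B, ∀ σ : List Bool, Γ ∈ h →
      Lim (fun τ σ => G0 Γ x F τ σ ∈ h) (vx (F (gr (xz σ))) h) (vx (x (gr (xz σ))) h) :=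
    ae_all fun σ => lim_G hp hT _
  have h3 : ∀ᶠ h in ae B, ∀ τ : List Bool, (⨆ t, pre (F t) τ) ∈ h ↔ ∃ t, pre (F t) τ ∈ h :=
    ae_all fun τ => ae_iSup _
  have hxz : ∀ σ σ' : List Bool, σ <+: σ' → res (xz σ') σ.length = σ := by
    intro σ σ' h
    refine List.ext_getElem (hp.len _ _) fun i h1 h2 => ?_
    obtain ⟨τ, rfl⟩ := h
    simp only [res, List.getElem_map, List.getElem_range, xz]
    rw [List.getD_eq_getElem?_getD, List.getElem?_append_left h2, List.getElem?_eq_getElem h2]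
    rfl
  have hpre : ∀ (h : Ult B) (σ σ' : List Bool), σ <+: σ' → pre (x (gr (xz σ'))) σ ∈ h := by
    intro h σ σ' hs
    rw [hp.pre, vx_ground (hgr (xz σ')) h]
    exact hxz σ σ' hs
  filter_upwards [h1, h2, h3] with h h1 h2 h3 hΓ
  refine ⟨?_, ?_, ?_, ?_, ?_⟩
  · intro σ σ' τ τ' hc hF hF'
    rcases hc with hc | hc
    · exact cpb_of_pre hp _ _ _ h (F0_mem hF _ (hpre h σ σ' hc))
        (F0_mem hF' _ (hpre h σ' σ' List.prefix_rfl))
    · exact cpb_of_pre hp _ _ _ h (F0_mem hF _ (hpre h σ σ List.prefix_rfl))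
        (F0_mem hF' _ (hpre h σ' σ hc))
  · intro τ τ' σ σ' hc hG hG'
    rcases hc with hc | hc
    · obtain ⟨t, ht⟩ := (h3 τ').1 (h.mem_inf.1 (h.mem_inf.1 hG').1).2
      exact cpb_of_pre hp _ _ _ h (G0_mem hG _ (h.mono (pre_mono hp _ hc) ht)) (G0_mem hG' _ ht)
    · obtain ⟨t, ht⟩ := (h3 τ).1 (h.mem_inf.1 (h.mem_inf.1 hG).1).2
      exact cpb_of_pre hp _ _ _ h (G0_mem hG _ ht) (G0_mem hG' _ (h.mono (pre_mono hp _ hc) ht))
  · intro σ τ τ' hc hF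
    refine h.mono ?_ hF
    exact inf_le_inf_left _ (iInf_mono fun t => himp_le_himp_left (pre_mono hp _ hc))
  · intro τ σ σ' hc hG
    refine h.mono ?_ hG
    exact inf_le_inf_left _ (iInf_mono fun t => himp_le_himp_left (pre_mono hp _ hc))
  · intro σ
    refine ⟨vx (F (gr (xz σ))) h, ?_, ?_⟩
    · have h4 := h1 σ hΓ
      rw [vx_ground (hgr (xz σ)) h] at h4
      exact h4
    · have h4 := h2 σ hΓ
      rw [vx_ground (hgr (xz σ)) h] at h4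
      exact h4

end

end

end Pool.Agent.Lib.MP_a78e1f_lc.H72
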