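import Pool.Agent.Lib.MP_a78e1f_lc.H72.Comb

/-!
# TRM, TRL, part 2: a general theorem on trees of paths
-/

universe u v w

open Cardinal Filter MeasureTheory

namespace Pool.Agent.Lib.MP_a78e1f_lc.H72

open Pool.Agent.Lib.MP_100a6c_lc
open Pool.Agent.Lib.MP_c5d73d_lc.F (pr)
open Pool.Agent.Lib.MP_e6fef2_lc
open Pool.Agent.Lib.MP_6d445e_gt
open Pool.Agent.Lib.MP_a78e1f_lc

section

variable {𝒯 : Set (List ℕ) → Prop} {A : Type u} [CompleteBooleanAlgebra A]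

theorem mem_tst_of (σ : TX 𝒯 A) : ∀ᶠ g in ae A, ∀ t, σ.1 t ∈ g →
    (∀ t', σ.1 t' ∈ g → Cmp t' t) → tst σ t ∈ g := by
  have h1 : ∀ᶠ g in ae A, ∀ t : List ℕ,
      (⨅ t', ⨅ _ : ¬ Cmp t' t, (σ.1 t')ᶜ) ∈ g ↔ ∀ t', (⨅ _ : ¬ Cmp t' t, (σ.1 t')ᶜ) ∈ g :=
    ae_all fun t => ae_iInf _
  have h2 : ∀ᶠ g in ae A, ∀ t t' : List ℕ,
      (⨅ _ : ¬ Cmp t' t, (σ.1 t')ᶜ) ∈ g ↔ ∀ _ : ¬ Cmp t' t, (σ.1 t')ᶜ ∈ g :=
    ae_all fun t => ae_all fun t' => ae_iInf _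
  filter_upwards [h1, h2] with g h1 h2 t ht hc
  refine g.mem_inf.2 ⟨ht, (h1 t).2 fun t' => (h2 t t').2 fun hn => g.mem_compl.2 fun h => ?_⟩
  exact hn (hc t' h)

theorem mem_tle_of (σ σ' : TX 𝒯 A) : ∀ᶠ g in ae A, (∀ t, σ.1 t ∈ g → σ'.1 t ∈ g) →
    (TQ 𝒯 A).le σ σ' ∈ g := by
  have h1 : ∀ᶠ g in ae A, (⨅ t, σ.1 t ⇨ σ'.1 t) ∈ g ↔ ∀ t, (σ.1 t ⇨ σ'.1 t) ∈ g := ae_iInf _
  filter_upwards [h1] with g h1 h
  exact h1.2 fun t => g.mem_himp.2 (h t)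

theorem of_mem_tle {g : Ult A} {σ σ' : TX 𝒯 A} (h : (TQ 𝒯 A).le σ σ' ∈ g) {t : List ℕ}
    (ht : σ.1 t ∈ g) : σ'.1 t ∈ g :=
  g.mem_himp.1 (g.mono (iInf_le _ t) h) ht

/-- The tree `τ` in the generic filter. -/
theorem tool (h𝒯 : TFam 𝒯) (hgnd : GndStatement.{u}) (hgmx : GmxStatement.{u})
    (hce : IsCE (tE 𝒯 A)) (τ : TX 𝒯 A) (T : Ult A → Set (List ℕ)) (a : A)
    (hT : ∀ᶠ g in ae A, a ∈ g → ∀ t, τ.1 t ∈ g ↔ t ∈ T g) (σ : TX 𝒯 A) :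
    ∀ᶠ h in ae (tC 𝒯 A), tE 𝒯 A a ⊓ tG τ ∈ h →
      (∀ t, (tND t : tC 𝒯 A) ∈ h → t ∈ T (h.pull hce)) ∧
      (∀ t t1, (tND t : tC 𝒯 A) ∈ h → t1 ∈ T (h.pull hce) → Cmp t1 t →
        (∀ t' ∈ T (h.pull hce), Cmp t' t → Cmp t' t1) → (tND t1 : tC 𝒯 A) ∈ h) ∧
      ∀ t, (tND t : tC 𝒯 A) ∈ h →
        (∀ t' ∈ T (h.pull hce), Cmp t' t → σ.1 t' ∈ h.pull hce) → tG σ ∈ h := by
  obtain ⟨-, -, -, -, -, -, hprj, htst⟩ := hgnd 𝒯 h𝒯 A
  obtain ⟨hres, -, -, -, -, hfo, hfole, -⟩ := hgmx 𝒯 h𝒯 A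
  have hle : ∀ c : tC 𝒯 A, c ≤ tE 𝒯 A (prj (tE 𝒯 A) c) :=
    (all_alg A (tC 𝒯 A) (tE 𝒯 A) hce).2.2.2.2.2.2.2.2.2.1
  choose ρ hρ1 hρ2 hρ3 hρ4 using hres τ
  have q1 : ∀ᶠ g in ae A, ∀ t, ∀ t1, (ρ t).1 t1 ∈ g → (∀ t', (ρ t).1 t' ∈ g → Cmp t' t1) →
      tst (ρ t) t1 ∈ g := ae_all fun t => mem_tst_of (ρ t)
  have q2 : ∀ᶠ g in ae A, ∀ t, (∀ t', (ρ t).1 t' ∈ g → σ.1 t' ∈ g) →
      (TQ 𝒯 A).le (ρ t) σ ∈ g := ae_all fun t => mem_tle_of (ρ t) σ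
  filter_upwards [ae_pull hce hT, ae_pull hce q1, ae_pull hce q2] with h g1 g2 g3 hp
  obtain ⟨hag, hτ⟩ := h.mem_inf.1 hp
  have hT' := g1 hag
  have hA : ∀ t, (tND t : tC 𝒯 A) ∈ h → τ.1 t ∈ h.pull hce := by
    intro t ht
    have h1 : tE 𝒯 A (prj (tE 𝒯 A) (tG τ ⊓ tND t)) ∈ h :=
      h.mono (hle _) (h.mem_inf.2 ⟨hτ, ht⟩)
    rw [hprj] at h1
    exact h1
  have hG : ∀ t, (tND t : tC 𝒯 A) ∈ h → tG (ρ t) ∈ h := by
    intro t ht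
    have h1 : tG τ ⊓ tND t ∈ h := h.mem_inf.2 ⟨hτ, ht⟩
    rw [← hρ1 t] at h1
    exact (h.mem_inf.1 h1).2
  have hR : ∀ t, (tND t : tC 𝒯 A) ∈ h → ∀ s, (ρ t).1 s ∈ h.pull hce ↔
      s ∈ T (h.pull hce) ∧ Cmp s t := by
    intro t ht s
    have h1 := hA t ht
    have h2 : (ρ t).1 s ∈ h.pull hce ↔ (τ.1 t ⊓ (ρ t).1 s) ∈ h.pull hce :=
      ⟨fun h3 => (h.pull hce).mem_inf.2 ⟨h1, h3⟩, fun h3 => ((h.pull hce).mem_inf.1 h3).2⟩
    rw [h2, hρ4 t s, ← hT' s]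
    constructor
    · intro h3
      have h4 := ((h.pull hce).mem_inf.1 h3).2
      by_cases hc : Cmp s t
      · rw [iSup_pos hc] at h4
        exact ⟨h4, hc⟩
      · rw [iSup_neg hc] at h4
        exact absurd h4 (h.pull hce).not_bot
    · rintro ⟨h3, hc⟩
      rw [iSup_pos hc]
      exact (h.pull hce).mem_inf.2 ⟨h1, h3⟩
  refine ⟨fun t ht => (hT' t).1 (hA t ht), ?_, ?_⟩
  · intro t t1 ht ht1 hc hall
    have h1 : tst (ρ t) t1 ∈ h.pull hce := by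
      refine g2 t t1 ((hR t ht t1).2 ⟨ht1, hc⟩) fun t' ht' => ?_
      obtain ⟨h2, h3⟩ := (hR t ht t').1 ht'
      exact hall t' h2 h3
    exact h.mono (htst (ρ t) t1) (h.mem_inf.2 ⟨h1, hG t ht⟩)
  · intro t ht hall
    have h1 : (TQ 𝒯 A).le (ρ t) σ ∈ h.pull hce := by
      refine g3 t fun t' ht' => ?_
      obtain ⟨h2, h3⟩ := (hR t ht t').1 ht'
      exact hall t' h2 h3
    have h2 : tE 𝒯 A ((TQ 𝒯 A).le (ρ t) σ) ⊓ tG (ρ t) ≤ tG σ := by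
      rw [← hfo, hfole]
    exact h.mono h2 (h.mem_inf.2 ⟨h1, hG t ht⟩)

end

/-! ## The general theorem -/

theorem trs_gen (hgnd : GndStatement.{u}) (hgmx : GmxStatement.{u}) (hltree : LtreeStatement.{u})
    {𝒯 : Set (List ℕ) → Prop} {ok : List ℕ → List ℕ → Prop} (h𝒯 : TFam 𝒯)
    (hok : ∀ t t', ok t t' → t <+: t')
    (G2 : ∀ (X : Type u) (nd : X → List ℕ) (s0 : X) (Q : List X → Prop), CT ok nd s0 Q →
      𝒯 (tr nd Q))
    (G3 : ∀ (X : Type u) (nd : X → List ℕ) (s0 : X) (Q : List X → Prop), CT ok nd s0 Q →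
      ∀ σ, 𝒯 σ → σ ⊆ tr nd Q → ∀ n0, ∃ s ρ, Q (s :: ρ) ∧ n0 ≤ ρ.length ∧
        ∀ m, ∃ k, m ≤ k ∧ nd s ++ [k] ∈ σ) : Trs.{u} 𝒯 ok := by
  intro A _ X _ nd gd ed hph s0 a ha
  obtain ⟨hne, hnil, -, hcmp, hsup, -, hprj, -⟩ := hgnd 𝒯 h𝒯 A
  obtain ⟨-, hdens, htop, -, -, hfo, hfole, hname⟩ := hgmx 𝒯 h𝒯 A
  have hce : IsCE (tE 𝒯 A) := (all_tw1 A (TX 𝒯 A) (TQ 𝒯 A)).1
  have halg := all_alg A (tC 𝒯 A) (tE 𝒯 A) hce
  obtain ⟨P, hP⟩ := hltree ok hok A X nd gd ed hph s0 a ha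
  obtain ⟨T0, hT0⟩ := h𝒯.ne
  have hgd : ∀ g : Ult A, a ∈ g → PTr ok nd ed s0 P g → ∀ s ρ, P (s :: ρ) ∈ g → gd s ∈ g := by
    intro g hg hp s ρ hs
    rcases ρ with _ | ⟨b, ρ⟩
    · obtain ⟨ρ, hρ⟩ := hp.last _ hs
      have h1 : s = s0 := by
        rcases ρ with _ | ⟨b, ρ⟩
        · simpa using hρ
        · simp at hρ
      rw [h1]
      exact g.mono ha hg
    · exact g.mono (hph.le _ _ _) (hp.step _ _ _ hs).2
  have hct : ∀ g : Ult A, a ∈ g → PTr ok nd ed s0 P g → CT ok nd s0 fun π => P π ∈ g := by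
    intro g hg hp
    refine ⟨hp.root, hp.last, fun s' s π h => ?_, hp.uniq, hp.inf, fun s ρ h => ?_⟩
    · obtain ⟨h1, h2⟩ := hp.step _ _ _ h
      obtain ⟨l, -, hl⟩ := hph.node 0 s s' fun h3 => g.not_bot (h3 ▸ h2)
      exact ⟨h1, l, hl⟩
    · exact hph.inc s fun h3 => g.not_bot (h3 ▸ hgd g hg hp s ρ h)
  -- the name of the tree
  have hms : ∀ t, MeasurableSet {g : Ult A | (a ∈ g ∧ t ∈ tr nd fun π => P π ∈ g) ∨
      (a ∉ g ∧ t ∈ T0)} := by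
    intro t
    refine measurableSet_setOfPred.2 (((H4.meas_mem a).and ?_).or
      ((H4.meas_mem a).not.and measurable_const))
    exact Measurable.exists fun s => Measurable.exists fun ρ =>
      (H4.meas_mem _).and measurable_const
  obtain ⟨τ, hτ⟩ := hname (fun t g => (a ∈ g ∧ t ∈ tr nd fun π => P π ∈ g) ∨ (a ∉ g ∧ t ∈ T0))
    hms (by
      filter_upwards [hP] with g hg
      by_cases hag : a ∈ g
      · have e : {t | (a ∈ g ∧ t ∈ tr nd fun π => P π ∈ g) ∨ (a ∉ g ∧ t ∈ T0)} =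
            tr nd fun π => P π ∈ g := by
          ext t
          simp only [Set.mem_ofPred_eq, hag, true_and, not_true_eq_false, false_and, or_false]
        rw [e]
        exact G2 X nd s0 _ (hct g hag (hg hag))
      · have e : {t | (a ∈ g ∧ t ∈ tr nd fun π => P π ∈ g) ∨ (a ∉ g ∧ t ∈ T0)} = T0 := by
          ext t
          simp only [Set.mem_ofPred_eq, hag, false_and, not_false_eq_true, true_and, false_or]
        rw [e]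
        exact hT0)
  have hτ' : ∀ᶠ g in ae A, a ∈ g → ∀ t, τ.1 t ∈ g ↔ t ∈ tr nd fun π => P π ∈ g := by
    filter_upwards [hτ] with g hg hag t
    rw [hg t]
    simp only [hag, true_and, not_true_eq_false, false_and, or_false]
  refine ⟨P, τ, hP, ?_, ?_, ?_⟩
  · -- the generic branch
    have k1 : ∀ᶠ h in ae (tC 𝒯 A), ∀ t, (tND t : tC 𝒯 A) ∈ h →
        ∃ k, (tND (t ++ [k]) : tC 𝒯 A) ∈ h := by
      refine ae_all fun t => ?_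
      filter_upwards [ae_iSup fun k => (tND (t ++ [k]) : tC 𝒯 A)] with h hh ht
      rw [hsup t] at ht
      exact hh.1 ht
    filter_upwards [tool h𝒯 hgnd hgmx hce τ _ a hτ' τ, k1, ae_pull hce hP] with h t1 t2 t3 hp
    intro g hg
    have hgh : h.pull hce = g := Ult.ext (Set.ext fun b => (hg b).symm)
    obtain ⟨tA, tB, -⟩ := t1 hp
    rw [hgh] at tA tB t3
    have hag : a ∈ g := (hg a).2 (h.mem_inf.1 hp).1
    have hC := hct g hag (t3 hag)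
    have root : (tND (nd s0) : tC 𝒯 A) ∈ h := by
      refine tB [] (nd s0) (by rw [hnil]; exact h.mem_top) ⟨s0, [], hC.root, List.prefix_rfl⟩
        (Or.inr List.nil_prefix) fun t' ht' _ => hC.cmp_root hok ht'
    have step : ∀ q : {q : X × List X // P (q.1 :: q.2) ∈ g ∧ (tND (nd q.1) : tC 𝒯 A) ∈ h},
        ∃ q' : {q : X × List X // P (q.1 :: q.2) ∈ g ∧ (tND (nd q.1) : tC 𝒯 A) ∈ h},
          q'.1.2 = q.1.1 :: q.1.2 := by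
      rintro ⟨⟨s, ρ⟩, hs, hn⟩
      obtain ⟨k, hk⟩ := t2 _ hn
      obtain ⟨s1, ρ1, hs1, hp1⟩ := tA _ hk
      obtain ⟨s', hs', hk', hok', -⟩ := hC.c1 hok hs hs1 hp1
      refine ⟨⟨(s', s :: ρ), hs', ?_⟩, rfl⟩
      exact tB _ (nd s') hk ⟨s', s :: ρ, hs', List.prefix_rfl⟩ (Or.inr hk')
        fun t' ht' hc => hC.cmp_child hok hs hs' hk' ht' hc
    choose f hf using step
    let ζ : ℕ → {q : X × List X // P (q.1 :: q.2) ∈ g ∧ (tND (nd q.1) : tC 𝒯 A) ∈ h} :=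
      fun n => Nat.rec ⟨(s0, []), hC.root, root⟩ (fun _ q => f q) n
    have hζ : ∀ n, (ζ (n + 1)).1.2 = (ζ n).1.1 :: (ζ n).1.2 := fun n => hf (ζ n)
    have hlen : ∀ n, (ζ n).1.2.length = n := by
      intro n
      induction n with
      | zero => rfl
      | succ n ih => rw [hζ n, List.length_cons, ih]
    refine ⟨fun n => (ζ n).1.1 :: (ζ n).1.2, rfl, fun n => ⟨(ζ (n + 1)).1.1, ?_⟩,
      fun n => (ζ n).2.1, fun s ρ hs => ⟨fun hn => ?_, fun he => ?_⟩⟩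
    · show _ :: (ζ (n + 1)).1.2 = _
      rw [hζ n]
    · have hc : Cmp (nd s) (nd (ζ ρ.length).1.1) := by
        by_contra hc
        have h3 : (tND (nd s) : tC 𝒯 A) ⊓ tND (nd (ζ ρ.length).1.1) ∈ h :=
          h.mem_inf.2 ⟨hn, (ζ ρ.length).2.2⟩
        rw [hcmp _ _ hc] at h3
        exact h.not_bot h3
      have h1 := hC.c0 hok hs (ζ ρ.length).2.1 hc (hlen _).ge
      exact h1.eq_of_length (by simp only [List.length_cons, hlen])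
    · have h1 := (ζ ρ.length).2.2
      rw [← (List.cons.inj he).1] at h1
      exact h1
  · -- trees in the generic filter
    intro σ
    filter_upwards [tool h𝒯 hgnd hgmx hce τ _ a hτ' σ, ae_pull hce hP, ae_pull hce σ.2] with
      h t1 t3 t4 hp
    intro g hg s ρ hs hn hall
    have hgh : h.pull hce = g := Ult.ext (Set.ext fun b => (hg b).symm)
    obtain ⟨-, -, tD⟩ := t1 hp
    rw [hgh] at tD t3 t4
    have hag : a ∈ g := (hg a).2 (h.mem_inf.1 hp).1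
    have hC := hct g hag (t3 hag)
    refine tD (nd s) hn fun t' ht' hc => ?_
    obtain ⟨s', ρ', h1, h2, h3⟩ := hC.desc hok hs ht' hc
    exact h𝒯.pre _ t4 _ _ h3 (hall s' ρ' h1 h2)
  · -- density
    intro r hr hrp n0
    obtain ⟨b, σ, hb, hbσ⟩ := hdens r hr
    have hlin : ∀ (c : tC 𝒯 A) (a : A), prj (tE 𝒯 A) (c ⊓ tE 𝒯 A a) = prj (tE 𝒯 A) c ⊓ a :=
      halg.2.2.2.2.2.2.2.2.2.2.2.2.2.2.2.2.1
    have hba : b ≤ a := by
      have h1 : prj (tE 𝒯 A) (tG σ ⊓ tE 𝒯 A b) ≤ a := by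
        rw [halg.2.2.2.2.2.2.2.2.2.2.1]
        exact (le_inf inf_le_right inf_le_left).trans ((hbσ.trans hrp).trans inf_le_left)
      rw [hlin, htop, top_inf_eq] at h1
      exact h1
    have hbτ : b ≤ (TQ 𝒯 A).le σ τ := by
      rw [← hfole, hfo]
      exact (hbσ.trans hrp).trans inf_le_right
    have hms2 : ∀ q : X × List X, MeasurableSet {g : Ult A | P (q.1 :: q.2) ∈ g ∧
        ∀ m : ℕ, ∃ s' l, m ≤ l ∧ ok (nd q.1 ++ [l]) (nd s') ∧ P (s' :: q.1 :: q.2) ∈ g ∧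
          prj (tE 𝒯 A) (r ⊓ tND (nd s')) ∈ g} := by
      intro q
      refine measurableSet_setOfPred.2 ((H4.meas_mem _).and (Measurable.forall fun m =>
        Measurable.exists fun s' => Measurable.exists fun l => ?_))
      exact measurable_const.and (measurable_const.and ((H4.meas_mem _).and (H4.meas_mem _)))
    obtain ⟨w, hw⟩ := exists_name (J := X × List X) (F := fun q g => P (q.1 :: q.2) ∈ g ∧
        ∀ m : ℕ, ∃ s' l, m ≤ l ∧ ok (nd q.1 ++ [l]) (nd s') ∧ P (s' :: q.1 :: q.2) ∈ g ∧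
          prj (tE 𝒯 A) (r ⊓ tND (nd s')) ∈ g) hms2
    obtain ⟨g, hg, g1, g2, g3, g4⟩ := exists_of_ae (hP.and (hτ'.and (σ.2.and hw))) hb
    have hag : a ∈ g := g.mono hba hg
    have hC := hct g hag (g1 hag)
    have hσT : {t | σ.1 t ∈ g} ⊆ tr nd fun π => P π ∈ g := by
      intro t ht
      exact (g2 hag t).1 (of_mem_tle (g.mono hbτ hg) ht)
    obtain ⟨s, ρ, hs, hρ, hk⟩ := G3 X nd s0 _ hC _ g3 hσT n0
    have hwg : w (s, ρ) ∈ g := by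
      rw [g4]
      refine ⟨hs, fun m => ?_⟩
      obtain ⟨k, hmk, hk⟩ := hk m
      obtain ⟨s', h1, h2, h3⟩ := hC.child_mem hok (h𝒯.pre _ g3) (h𝒯.ext _ g3) hσT hs hk
      refine ⟨s', k, hmk, h2, h1, ?_⟩
      have h4 : b ⊓ σ.1 (nd s') ≤ prj (tE 𝒯 A) (r ⊓ tND (nd s')) := by
        have h5 : prj (tE 𝒯 A) (tG σ ⊓ tND (nd s') ⊓ tE 𝒯 A b) ≤
            prj (tE 𝒯 A) (r ⊓ tND (nd s')) := by
          refine halg.2.2.2.2.2.2.2.2.2.2.2.2.1 _ _ (le_inf ?_ (inf_le_left.trans inf_le_right))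
          exact le_trans (le_inf inf_le_right (inf_le_left.trans inf_le_left)) hbσ
        rw [hlin, hprj, inf_comm] at h5
        exact h5
      exact g.mono h4 (g.mem_inf.2 ⟨hg, h3⟩)
    refine ⟨s, ρ, hρ, b ⊓ w (s, ρ), ?_, inf_le_left.trans hba, ?_⟩
    · intro h
      exact g.not_bot (h ▸ g.mem_inf.2 ⟨hg, hwg⟩)
    · filter_upwards [hw] with g' hg' hin
      exact (hg' (s, ρ)).1 (g'.mem_inf.1 hin).2

end Pool.Agent.Lib.MP_a78e1f_lc.H72
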